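import Pool.Agent.H6.Cub.Smooth

/-!
The covering: three stages.
-/

namespace Pool.Agent.H6.Cub

open Finset Filter Topology

open Classical in
/-- the survivors of the middle stage, in absolute value -/
noncomputable def srv (M z h : ℕ) : Finset ℕ :=
  (Icc 1 M).filter (fun n => n ∈ z.smoothNumbers) ∪
    ((Ioc h M).filter Nat.Prime).biUnion (fun q => (Ioc 0 M).filter (fun n => q ∣ n))

theorem card_srv (M z h : ℕ) : ((srv M z h).card : ℝ) ≤
    (((Icc 1 M).filter (fun n => n ∈ z.smoothNumbers)).card : ℝ) +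
      ∑ q ∈ (Ioc h M).filter Nat.Prime, (M : ℝ) * (1 / q) := by
  classical
  unfold srv
  have h1 := card_union_le ((Icc 1 M).filter (fun n => n ∈ z.smoothNumbers))
    (((Ioc h M).filter Nat.Prime).biUnion (fun q => (Ioc 0 M).filter (fun n => q ∣ n)))
  have h2 := card_biUnion_le (s := (Ioc h M).filter Nat.Prime)
    (t := fun q => (Ioc 0 M).filter (fun n => q ∣ n))
  have h3 : ((∑ q ∈ (Ioc h M).filter Nat.Prime, ((Ioc 0 M).filter (fun n => q ∣ n)).card : ℕ) : ℝ) ≤
      ∑ q ∈ (Ioc h M).filter Nat.Prime, (M : ℝ) * (1 / q) := by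
    push_cast
    apply Finset.sum_le_sum
    intro q hq
    rw [Nat.Ioc_filter_dvd_card_eq_div]
    rw [mul_one_div]
    exact Nat.cast_div_le
  have h4 : ((((Icc 1 M).filter (fun n => n ∈ z.smoothNumbers) ∪
      ((Ioc h M).filter Nat.Prime).biUnion (fun q => (Ioc 0 M).filter (fun n => q ∣ n))).card : ℕ) : ℝ)
      ≤ (((Icc 1 M).filter (fun n => n ∈ z.smoothNumbers)).card : ℝ) +
        ((∑ q ∈ (Ioc h M).filter Nat.Prime, ((Ioc 0 M).filter (fun n => q ∣ n)).card : ℕ) : ℝ) := by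
    exact_mod_cast h1.trans (Nat.add_le_add_left h2 _)
  linarith

theorem card_unc_middle (M z h : ℕ) :
    (unc ((Icc z h).filter Nat.Prime) (fun _ => 0) (Icc (-(M : ℤ)) M)).card ≤
      2 * (srv M z h).card + 1 := by
  classical
  have hsub : unc ((Icc z h).filter Nat.Prime) (fun _ => 0) (Icc (-(M : ℤ)) M) ⊆
      ((srv M z h).image (fun n : ℕ => (n : ℤ)) ∪ (srv M z h).image (fun n : ℕ => -(n : ℤ))) ∪ {0} := by
    intro m hm
    rw [mem_unc, mem_Icc] at hm
    obtain ⟨⟨hm1, hm2⟩, hm3⟩ := hm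
    rcases eq_or_ne m 0 with rfl | hm0
    · simp
    apply mem_union_left
    have hsrv : m.natAbs ∈ srv M z h := by
      have hn1 : 1 ≤ m.natAbs := Int.natAbs_pos.2 hm0
      have hnM : m.natAbs ≤ M := by omega
      unfold srv
      by_cases hs : m.natAbs ∈ z.smoothNumbers
      · exact mem_union_left _ (mem_filter.2 ⟨mem_Icc.2 ⟨hn1, hnM⟩, hs⟩)
      · apply mem_union_right
        rw [Nat.mem_smoothNumbers'] at hs
        push Not at hs
        obtain ⟨q, hq, hqn, hzq⟩ := hs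
        have hqM : q ≤ M := (Nat.le_of_dvd hn1 hqn).trans hnM
        have hqm : (q : ℤ) ∣ m := Int.natCast_dvd.2 hqn
        have hqh : h < q := by
          by_contra hcon
          push Not at hcon
          have h5 := hm3 q (mem_filter.2 ⟨mem_Icc.2 ⟨hzq, hcon⟩, hq⟩)
          apply h5
          rw [add_zero]
          exact dvd_pow hqm (by norm_num)
        rw [mem_biUnion]
        exact ⟨q, mem_filter.2 ⟨mem_Ioc.2 ⟨hqh, hqM⟩, hq⟩,
          mem_filter.2 ⟨mem_Ioc.2 ⟨hn1, hnM⟩, hqn⟩⟩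
    rcases Int.natAbs_eq m with h | h
    · apply mem_union_left
      exact mem_image.2 ⟨m.natAbs, hsrv, h.symm⟩
    · apply mem_union_right
      exact mem_image.2 ⟨m.natAbs, hsrv, h.symm⟩
  have h1 := card_le_card hsub
  have h2 := card_union_le ((srv M z h).image (fun n : ℕ => (n : ℤ)) ∪
    (srv M z h).image (fun n : ℕ => -(n : ℤ))) {0}
  have h3 := card_union_le ((srv M z h).image (fun n : ℕ => (n : ℤ)))
    ((srv M z h).image (fun n : ℕ => -(n : ℤ)))
  have h4 : ((srv M z h).image (fun n : ℕ => (n : ℤ))).card ≤ (srv M z h).card := card_image_le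
  have h5 : ((srv M z h).image (fun n : ℕ => -(n : ℤ))).card ≤ (srv M z h).card := card_image_le
  rw [card_singleton] at h2
  omega

/-- the covering, given the numerical inequality -/
theorem cover (y M z h : ℕ) (hzh : z ≤ h + 1) (hhy : h ≤ y)
    (hb : (∏ p ∈ z.primesBelow, wt p) *
      (2 * ((((Icc 1 M).filter (fun n => n ∈ z.smoothNumbers)).card : ℝ) +
      ∑ q ∈ (Ioc h M).filter Nat.Prime, (M : ℝ) * (1 / q)) + 1) ≤
      (((Ioc h y).filter Nat.Prime).card : ℝ)) :
    ∃ r : ℕ → ℤ, ∀ m : ℤ, |m| ≤ (M : ℤ) → ∃ p : ℕ, p.Prime ∧ p ≤ y ∧ (p : ℤ) ∣ m ^ 3 + r p := by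
  classical
  set S := Icc (-(M : ℤ)) (M : ℤ) with hS
  set S1 := unc ((Icc z h).filter Nat.Prime) (fun _ => 0) S with hS1
  obtain ⟨r0, hr0⟩ := greedy_prod z.primesBelow (fun p hp => Nat.prime_of_mem_primesBelow hp) S1
  have hc1 : (S1.card : ℝ) ≤ 2 * ((srv M z h).card : ℝ) + 1 := by
    exact_mod_cast card_unc_middle M z h
  have hc2 := card_srv M z h
  have hw : 0 ≤ ∏ p ∈ z.primesBelow, wt p :=
    Finset.prod_nonneg fun p hp => wt_nonneg p (Nat.prime_of_mem_primesBelow hp)
  have hc3 : ((unc z.primesBelow r0 S1).card : ℝ) ≤ (((Ioc h y).filter Nat.Prime).card : ℝ) := by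
    refine hr0.trans (le_trans (mul_le_mul_of_nonneg_left ?_ hw) hb)
    linarith
  obtain ⟨r2, hr2⟩ := last_stage (unc z.primesBelow r0 S1) ((Ioc h y).filter Nat.Prime)
    (by exact_mod_cast hc3)
  have hd1 : Disjoint ((Icc z h).filter Nat.Prime) z.primesBelow := by
    rw [Finset.disjoint_left]
    intro p hp hp'
    rw [mem_filter, mem_Icc] at hp
    have := Nat.lt_of_mem_primesBelow hp'
    omega
  obtain ⟨r3, hr3⟩ := unc_union _ _ hd1 (fun _ => 0) r0 S
  have hd2 : Disjoint ((Icc z h).filter Nat.Prime ∪ z.primesBelow) ((Ioc h y).filter Nat.Prime) := by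
    rw [Finset.disjoint_left]
    intro p hp hp'
    rw [mem_filter, mem_Ioc] at hp'
    rw [mem_union, mem_filter, mem_Icc] at hp
    rcases hp with hp | hp
    · omega
    · have := Nat.lt_of_mem_primesBelow hp
      omega
  obtain ⟨r, hr⟩ := unc_union _ _ hd2 r3 r2 S
  rw [hr3, ← hS1, hr2] at hr
  refine ⟨r, fun m hm => ?_⟩
  have hmS : m ∈ S := by
    rw [hS, mem_Icc]
    exact ⟨(abs_le.1 hm).1, (abs_le.1 hm).2⟩
  by_contra hcon
  push Not at hcon
  have h1 : m ∈ unc (((Icc z h).filter Nat.Prime ∪ z.primesBelow) ∪ (Ioc h y).filter Nat.Prime) r S := by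
    rw [mem_unc]
    refine ⟨hmS, fun p hp => ?_⟩
    have hp2 : p.Prime ∧ p ≤ y := by
      rw [mem_union, mem_union, mem_filter, mem_filter, mem_Icc, mem_Ioc] at hp
      rcases hp with (hp | hp) | hp
      · exact ⟨hp.2, hp.1.2.trans hhy⟩
      · refine ⟨Nat.prime_of_mem_primesBelow hp, ?_⟩
        have := Nat.lt_of_mem_primesBelow hp
        omega
      · exact ⟨hp.2, hp.1.2⟩
    exact hcon p hp2.1 hp2.2
  rw [hr] at h1
  exact absurd h1 (notMem_empty m)

/-- primes in `(y/2, y]` -/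
theorem last_primes : ∀ᶠ y : ℕ in atTop,
    (y : ℝ) / (4 * Real.log y) ≤ (((Ioc (y / 2) y).filter Nat.Prime).card : ℝ) := by
  have h1 := Pool.Agent.H5.PNT.pi_tendsto
  have h2 : ∀ᶠ x : ℝ in atTop, 0.9 < (Nat.primeCounting ⌊x⌋₊ : ℝ) * Real.log x / x :=
    h1.eventually_const_lt (by norm_num)
  have h3 : ∀ᶠ x : ℝ in atTop, (Nat.primeCounting ⌊x⌋₊ : ℝ) * Real.log x / x < 1.1 :=
    h1.eventually_lt_const (by norm_num)
  have h4 := (tendsto_natCast_atTop_atTop (R := ℝ)).eventually h2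
  have hhalf : Tendsto (fun y : ℕ => (y : ℝ) / 2) atTop atTop :=
    (tendsto_natCast_atTop_atTop (R := ℝ)).atTop_div_const (by norm_num)
  have h5 := hhalf.eventually h3
  have h6 : ∀ᶠ y : ℕ in atTop, (20 : ℝ) ≤ Real.log y :=
    (Real.tendsto_log_atTop.comp (tendsto_natCast_atTop_atTop (R := ℝ))).eventually_ge_atTop 20
  filter_upwards [h4, h5, h6, eventually_ge_atTop 100] with y hy1 hy2 hy3 hy4
  have hy4' : (100 : ℝ) ≤ y := by exact_mod_cast hy4
  have hfl : ⌊(y : ℝ) / 2⌋₊ = y / 2 := by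
    have := Nat.floor_div_natCast (y : ℝ) 2
    rw [Nat.floor_natCast] at this
    exact_mod_cast this
  rw [Nat.floor_natCast] at hy1
  rw [hfl] at hy2
  have hl2 : Real.log ((y : ℝ) / 2) = Real.log y - Real.log 2 := Real.log_div (by linarith) (by norm_num)
  have hln2 := Real.log_two_lt_d9
  have hlh : 0.95 * Real.log y ≤ Real.log ((y : ℝ) / 2) := by
    rw [hl2]
    linarith
  have hpos : 0 < Real.log y := by linarith
  rw [lt_div_iff₀ (by linarith)] at hy1
  rw [div_lt_iff₀ (by linarith)] at hy2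
  have hc0 : (0 : ℝ) ≤ (Nat.primeCounting (y / 2) : ℝ) := Nat.cast_nonneg _
  have hy5 : (Nat.primeCounting (y / 2) : ℝ) * (0.95 * Real.log y) < 1.1 * (y / 2) :=
    lt_of_le_of_lt (mul_le_mul_of_nonneg_left hlh hc0) hy2
  have hcard : (Nat.primeCounting y : ℝ) - Nat.primeCounting (y / 2) =
      (((Ioc (y / 2) y).filter Nat.Prime).card : ℝ) := by
    have e1 : ∀ n : ℕ, Nat.primeCounting n = ((Ioc 0 n).filter Nat.Prime).card := by
      intro n
      rw [Nat.primeCounting, Nat.primeCounting', Nat.count_eq_card_filter_range]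
      congr 1
      ext p
      simp only [mem_filter, mem_range, mem_Ioc]
      constructor
      · rintro ⟨h1, h2⟩
        exact ⟨⟨h2.pos, by omega⟩, h2⟩
      · rintro ⟨⟨h1, h2⟩, h3⟩
        exact ⟨by omega, h3⟩
    have e2 : (Ioc 0 y).filter Nat.Prime = (Ioc 0 (y / 2)).filter Nat.Prime ∪
        (Ioc (y / 2) y).filter Nat.Prime := by
      rw [← filter_union, Ioc_union_Ioc_eq_Ioc (Nat.zero_le _) (Nat.div_le_self y 2)]
    have e3 : ((Ioc 0 y).filter Nat.Prime).card = ((Ioc 0 (y / 2)).filter Nat.Prime).card +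
        ((Ioc (y / 2) y).filter Nat.Prime).card := by
      rw [e2, card_union_of_disjoint]
      apply disjoint_filter_filter
      rw [Finset.disjoint_left]
      intro q hq hq'
      rw [mem_Ioc] at hq hq'
      omega
    rw [e1, e1, e3]
    push_cast
    ring
  rw [← hcard, div_le_iff₀ (by positivity)]
  have : ((Nat.primeCounting y : ℝ) - Nat.primeCounting (y / 2)) * (4 * Real.log y) =
      4 * (Nat.primeCounting y * Real.log y) - 4 * (Nat.primeCounting (y / 2) * Real.log y) := by ring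
  rw [this]
  have h7 : (Nat.primeCounting (y / 2) : ℝ) * Real.log y ≤ 0.6 * y := by
    have : (Nat.primeCounting (y / 2) : ℝ) * (0.95 * Real.log y) =
      0.95 * ((Nat.primeCounting (y / 2) : ℝ) * Real.log y) := by ring
    rw [this] at hy5
    linarith
  linarith

end Pool.Agent.H6.Cub
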