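import Pool.Agent.H33.Cubic.Defs

/-!
Covering integers `m` by the conditions `p ∣ m ^ 3 + r p`: greedy choice of the residues `r p`.
-/

namespace Pool.Agent.H6.Cub

open Finset

open Classical in
/-- the elements `m` of `S` with `m ^ 3 + r p` divisible by no `p` in `s` -/
noncomputable def unc (s : Finset ℕ) (r : ℕ → ℤ) (S : Finset ℤ) : Finset ℤ :=
  S.filter (fun m => ∀ p ∈ s, ¬ ((p : ℤ) ∣ m ^ 3 + r p))

theorem mem_unc {s : Finset ℕ} {r : ℕ → ℤ} {S : Finset ℤ} {m : ℤ} :
    m ∈ unc s r S ↔ m ∈ S ∧ ∀ p ∈ s, ¬ ((p : ℤ) ∣ m ^ 3 + r p) := by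
  classical
  unfold unc
  rw [mem_filter]

theorem dvd_iff_zmod (p : ℕ) (m r : ℤ) :
    ((p : ℤ) ∣ m ^ 3 + r) ↔ (m : ZMod p) ^ 3 = -(r : ZMod p) := by
  rw [← (CharP.intCast_eq_zero_iff (ZMod p) p)]
  push_cast
  exact ⟨fun h => eq_neg_of_add_eq_zero_left h, fun h => by rw [h]; ring⟩

theorem exists_lift (p : ℕ) (y : ZMod p) : ∃ r : ℤ, (r : ZMod p) = y :=
  ZMod.intCast_surjective y

open Classical in
/-- one prime covers at least its share -/
theorem greedy1 (p : ℕ) (hp : p.Prime) (S : Finset ℤ) :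
    ∃ r : ℤ, ((S.filter (fun m => ¬ ((p : ℤ) ∣ m ^ 3 + r))).card : ℝ) ≤
      (1 - 1 / (p : ℝ)) * S.card := by
  have : Fact p.Prime := ⟨hp⟩
  have hp0 : (0 : ℝ) < p := by exact_mod_cast hp.pos
  obtain ⟨y, -, hy⟩ := Finset.exists_le_card_fiber_of_nsmul_le_card_of_maps_to
    (s := S) (t := (univ : Finset (ZMod p))) (f := fun m : ℤ => (m : ZMod p) ^ 3)
    (b := (S.card : ℝ) / p) (fun a _ => mem_univ _) univ_nonempty (by
      rw [card_univ, ZMod.card, nsmul_eq_mul]
      exact le_of_eq (by field_simp))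
  obtain ⟨r, hr⟩ := exists_lift p (-y)
  refine ⟨r, ?_⟩
  have h1 : S.filter (fun m : ℤ => (m : ZMod p) ^ 3 = y) = S.filter (fun m : ℤ => (p : ℤ) ∣ m ^ 3 + r) := by
    apply filter_congr
    intro m _
    rw [dvd_iff_zmod, hr, neg_neg]
  rw [h1] at hy
  have h2 := card_filter_add_card_filter_not (s := S) (fun m => (p : ℤ) ∣ m ^ 3 + r)
  have h3 : ((S.filter (fun m => (p : ℤ) ∣ m ^ 3 + r)).card : ℝ) +
      ((S.filter (fun m => ¬ ((p : ℤ) ∣ m ^ 3 + r))).card : ℝ) = S.card := by
    exact_mod_cast h2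
  have h4 : (S.card : ℝ) / p = 1 / (p : ℝ) * S.card := by ring
  rw [h4] at hy
  linarith

/-- few nonzero cubes -/
theorem card_cubes (p : ℕ) [Fact p.Prime] (hp3 : p % 3 = 1) :
    3 * ((univ.filter (fun x : ZMod p => x ≠ 0)).image (fun x => x ^ 3)).card ≤ p - 1 := by
  classical
  have h1 := Finset.mul_card_image_le_card_of_maps_to
    (s := univ.filter (fun x : ZMod p => x ≠ 0))
    (t := (univ.filter (fun x : ZMod p => x ≠ 0)).image (fun x => x ^ 3))
    (f := fun x : ZMod p => x ^ 3) (fun a ha => mem_image_of_mem _ ha) 3 (by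
      intro b hb
      rw [mem_image] at hb
      obtain ⟨a, ha, rfl⟩ := hb
      rw [mem_filter] at ha
      refine (Pool.Agent.H33.Cubic.three_le_card_roots p hp3).trans ?_
      apply Finset.card_le_card_of_injOn (fun u => a * u)
      · intro u hu
        rw [mem_coe, mem_filter] at hu
        rw [mem_coe, mem_filter, mem_filter]
        refine ⟨⟨mem_univ _, ?_⟩, ?_⟩
        · intro h0
          rcases mul_eq_zero.1 h0 with h | h
          · exact ha.2 h
          · rw [h] at hu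
            norm_num at hu
        · simp only
          rw [mul_pow, hu.2, mul_one]
      · intro u _ v _ huv
        exact mul_left_cancel₀ ha.2 huv)
  refine h1.trans (le_of_eq ?_)
  rw [filter_ne' univ (0 : ZMod p), card_erase_of_mem (mem_univ _), card_univ, ZMod.card]

open Classical in
/-- a prime `p ≡ 1 mod 3` covers at least three times its share -/
theorem greedy3 (p : ℕ) (hp : p.Prime) (hp3 : p % 3 = 1) (S : Finset ℤ) :
    ∃ r : ℤ, ((S.filter (fun m => ¬ ((p : ℤ) ∣ m ^ 3 + r))).card : ℝ) ≤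
      (1 - 3 / (p : ℝ) + 9 / (p : ℝ) ^ 2) * S.card := by
  have : Fact p.Prime := ⟨hp⟩
  have hp7 : 4 ≤ p := by have := hp.two_le; omega
  have hp0 : (4 : ℝ) ≤ p := by exact_mod_cast hp7
  have hppos : (0 : ℝ) < p := by linarith
  have hS0 : (0 : ℝ) ≤ S.card := Nat.cast_nonneg _
  have hsplit : ((S.filter (fun m => (p : ℤ) ∣ m)).card : ℝ) +
      ((S.filter (fun m => ¬ ((p : ℤ) ∣ m))).card : ℝ) = S.card := by
    exact_mod_cast card_filter_add_card_filter_not (s := S) (fun m => (p : ℤ) ∣ m)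
  by_cases h0 : 3 / (p : ℝ) * S.card ≤ (S.filter (fun m => (p : ℤ) ∣ m)).card
  · refine ⟨0, ?_⟩
    have h1 : S.filter (fun m => ¬ ((p : ℤ) ∣ m ^ 3 + 0)) = S.filter (fun m => ¬ ((p : ℤ) ∣ m)) := by
      apply filter_congr
      intro m _
      rw [add_zero, (Nat.prime_iff_prime_int.1 hp).dvd_pow_iff_dvd (by norm_num)]
    rw [h1]
    have h2 : (0 : ℝ) ≤ 9 / (p : ℝ) ^ 2 * S.card := by positivity
    nlinarith
  · push Not at h0
    set S1 := S.filter (fun m => ¬ ((p : ℤ) ∣ m)) with hS1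
    set T := (univ.filter (fun x : ZMod p => x ≠ 0)).image (fun x => x ^ 3) with hT
    have hTc : 3 * T.card ≤ p - 1 := card_cubes p hp3
    have hTne : T.Nonempty := by
      refine ⟨1, ?_⟩
      rw [hT, mem_image]
      exact ⟨1, by simp, by simp⟩
    obtain ⟨y, -, hy⟩ := Finset.exists_le_card_fiber_of_nsmul_le_card_of_maps_to
      (s := S1) (t := T) (f := fun m : ℤ => (m : ZMod p) ^ 3)
      (b := 3 / (p : ℝ) * S1.card) (by
        intro m hm
        rw [hT, mem_image]
        refine ⟨(m : ZMod p), ?_, rfl⟩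
        rw [mem_filter]
        refine ⟨mem_univ _, ?_⟩
        intro h
        rw [CharP.intCast_eq_zero_iff (ZMod p) p] at h
        rw [hS1, mem_filter] at hm
        exact hm.2 h) hTne (by
        rw [nsmul_eq_mul]
        have h1 : (3 : ℝ) * T.card ≤ p := by
          have : 3 * T.card ≤ p := by omega
          exact_mod_cast this
        have h2 : (T.card : ℝ) * (3 / (p : ℝ) * S1.card) = (3 * T.card / p) * S1.card := by ring
        rw [h2]
        have h3 : 3 * (T.card : ℝ) / p ≤ 1 := by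
          rw [div_le_one hppos]; exact h1
        have h4 : (0 : ℝ) ≤ S1.card := Nat.cast_nonneg _
        nlinarith)
    obtain ⟨r, hr⟩ := exists_lift p (-y)
    refine ⟨r, ?_⟩
    have h1 : S1.filter (fun m : ℤ => (m : ZMod p) ^ 3 = y) ⊆
        S.filter (fun m : ℤ => (p : ℤ) ∣ m ^ 3 + r) := by
      intro m hm
      rw [mem_filter, hS1, mem_filter] at hm
      rw [mem_filter, dvd_iff_zmod, hr, neg_neg]
      exact ⟨hm.1.1, hm.2⟩
    have h1' : ((S1.filter (fun m : ℤ => (m : ZMod p) ^ 3 = y)).card : ℝ) ≤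
        ((S.filter (fun m : ℤ => (p : ℤ) ∣ m ^ 3 + r)).card : ℝ) := by
      exact_mod_cast card_le_card h1
    have h2 := card_filter_add_card_filter_not (s := S) (fun m => (p : ℤ) ∣ m ^ 3 + r)
    have h3 : ((S.filter (fun m => (p : ℤ) ∣ m ^ 3 + r)).card : ℝ) +
        ((S.filter (fun m => ¬ ((p : ℤ) ∣ m ^ 3 + r))).card : ℝ) = S.card := by
      exact_mod_cast h2
    have h5 : (1 - 3 / (p : ℝ)) * S.card ≤ S1.card := by linarith
    have h6 : 3 / (p : ℝ) * ((1 - 3 / (p : ℝ)) * S.card) ≤ 3 / (p : ℝ) * S1.card :=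
      mul_le_mul_of_nonneg_left h5 (by positivity)
    have h7 : 3 / (p : ℝ) * ((1 - 3 / (p : ℝ)) * S.card) =
        3 / (p : ℝ) * S.card - 9 / (p : ℝ) ^ 2 * S.card := by
      field_simp
      ring
    have h8 : (1 - 3 / (p : ℝ) + 9 / (p : ℝ) ^ 2) * S.card =
        S.card - (3 / (p : ℝ) * S.card - 9 / (p : ℝ) ^ 2 * S.card) := by ring
    rw [h8]
    linarith

/-- the factor of a prime -/
noncomputable def wt (p : ℕ) : ℝ :=
  if p % 3 = 1 then 1 - 3 / (p : ℝ) + 9 / (p : ℝ) ^ 2 else 1 - 1 / (p : ℝ)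

theorem wt_nonneg (p : ℕ) (hp : p.Prime) : 0 ≤ wt p := by
  unfold wt
  split_ifs with h
  · have hp7 : 4 ≤ p := by have := hp.two_le; omega
    have hp0 : (4 : ℝ) ≤ p := by exact_mod_cast hp7
    have h1 : 3 / (p : ℝ) ≤ 1 := by rw [div_le_one (by linarith)]; linarith
    have h2 : (0 : ℝ) ≤ 9 / (p : ℝ) ^ 2 := by positivity
    linarith
  · have hp0 : (2 : ℝ) ≤ p := by exact_mod_cast hp.two_le
    have h1 : 1 / (p : ℝ) ≤ 1 := by rw [div_le_one (by linarith)]; linarith
    linarith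

open Classical in
theorem greedy (p : ℕ) (hp : p.Prime) (S : Finset ℤ) :
    ∃ r : ℤ, ((S.filter (fun m => ¬ ((p : ℤ) ∣ m ^ 3 + r))).card : ℝ) ≤ wt p * S.card := by
  unfold wt
  split_ifs with h
  · exact greedy3 p hp h S
  · exact greedy1 p hp S

theorem unc_insert (p : ℕ) (s : Finset ℕ) (hps : p ∉ s) (r : ℕ → ℤ) (a : ℤ) (S : Finset ℤ)
    [DecidablePred fun m : ℤ => ¬ ((p : ℤ) ∣ m ^ 3 + a)] :
    unc (insert p s) (Function.update r p a) S =
      (unc s r S).filter (fun m => ¬ ((p : ℤ) ∣ m ^ 3 + a)) := by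
  ext m
  rw [mem_unc, mem_filter, mem_unc]
  constructor
  · rintro ⟨h1, h2⟩
    refine ⟨⟨h1, fun q hq => ?_⟩, ?_⟩
    · have h4 := h2 q (mem_insert_of_mem hq)
      have hqp : q ≠ p := fun h => hps (h ▸ hq)
      rwa [Function.update_of_ne hqp] at h4
    · have := h2 p (mem_insert_self _ _)
      rwa [Function.update_self] at this
  · rintro ⟨⟨h1, h2⟩, h3⟩
    refine ⟨h1, fun q hq => ?_⟩
    rcases mem_insert.1 hq with rfl | hq'
    · rw [Function.update_self]; exact h3
    · have hqp : q ≠ p := fun h => hps (h ▸ hq')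
      rw [Function.update_of_ne hqp]; exact h2 q hq'

/-- greedy choice for all primes of a finite set -/
theorem greedy_prod (s : Finset ℕ) (hs : ∀ p ∈ s, p.Prime) (S : Finset ℤ) :
    ∃ r : ℕ → ℤ, ((unc s r S).card : ℝ) ≤ (∏ p ∈ s, wt p) * S.card := by
  classical
  induction s using Finset.induction_on with
  | empty =>
    refine ⟨fun _ => 0, ?_⟩
    rw [prod_empty, one_mul]
    have : unc ∅ (fun _ => 0) S ⊆ S := fun m hm => (mem_unc.1 hm).1
    exact_mod_cast card_le_card this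
  | insert p s hps ih =>
    obtain ⟨r, hr⟩ := ih (fun q hq => hs q (mem_insert_of_mem hq))
    have hp := hs p (mem_insert_self _ _)
    obtain ⟨a, ha⟩ := greedy p hp (unc s r S)
    refine ⟨Function.update r p a, ?_⟩
    rw [unc_insert p s hps r a S, prod_insert hps]
    refine ha.trans ?_
    rw [mul_assoc]
    exact mul_le_mul_of_nonneg_left hr (wt_nonneg p hp)

/-- one element per prime -/
theorem last_stage (S : Finset ℤ) : ∀ (T : Finset ℕ), S.card ≤ T.card →
    ∃ r : ℕ → ℤ, unc T r S = ∅ := by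
  classical
  induction S using Finset.induction_on with
  | empty =>
    intro T _
    refine ⟨fun _ => 0, ?_⟩
    apply eq_empty_of_forall_notMem
    intro m hm
    have := (mem_unc.1 hm).1
    simp at this
  | insert m S hmS ih =>
    intro T hT
    rw [card_insert_of_notMem hmS] at hT
    have hne : T.Nonempty := card_pos.1 (by omega)
    obtain ⟨p, hp⟩ := hne
    obtain ⟨r, hr⟩ := ih (T.erase p) (by rw [card_erase_of_mem hp]; omega)
    refine ⟨Function.update r p (-(m ^ 3)), ?_⟩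
    apply eq_empty_of_forall_notMem
    intro n hn
    rw [mem_unc] at hn
    obtain ⟨h1, h2⟩ := hn
    rcases mem_insert.1 h1 with rfl | h1
    · have := h2 p hp
      rw [Function.update_self] at this
      exact this (by simp)
    · have h3 : n ∈ unc (T.erase p) r S := by
        rw [mem_unc]
        refine ⟨h1, fun q hq => ?_⟩
        have := h2 q (mem_of_mem_erase hq)
        rwa [Function.update_of_ne (ne_of_mem_erase hq)] at this
      rw [hr] at h3
      simp at h3

/-- two stages -/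
theorem unc_union (s t : Finset ℕ) (hst : Disjoint s t) (r1 r2 : ℕ → ℤ) (S : Finset ℤ) :
    ∃ r : ℕ → ℤ, unc (s ∪ t) r S = unc t r2 (unc s r1 S) := by
  classical
  refine ⟨fun p => if p ∈ s then r1 p else r2 p, ?_⟩
  ext m
  rw [mem_unc, mem_unc, mem_unc]
  constructor
  · rintro ⟨h1, h2⟩
    refine ⟨⟨h1, fun p hp => ?_⟩, fun p hp => ?_⟩
    · have := h2 p (mem_union_left _ hp)
      simpa [hp] using this
    · have := h2 p (mem_union_right _ hp)
      have hps : p ∉ s := fun h => (Finset.disjoint_left.1 hst h hp)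
      simpa [hps] using this
  · rintro ⟨⟨h1, h2⟩, h3⟩
    refine ⟨h1, fun p hp => ?_⟩
    by_cases hps : p ∈ s
    · simpa [hps] using h2 p hps
    · simpa [hps] using h3 p ((mem_union.1 hp).resolve_left hps)

/-- Chinese remainder theorem -/
theorem crt (s : Finset ℕ) (hs : ∀ p ∈ s, p.Prime) (r : ℕ → ℤ) :
    ∃ k0 : ℕ, k0 < ∏ p ∈ s, p ∧ ∀ p ∈ s, (p : ℤ) ∣ (k0 : ℤ) - r p := by
  classical
  have hs0 : ∀ p ∈ s, (p : ℕ) ≠ 0 := fun p hp => (hs p hp).ne_zero
  have hco : Set.Pairwise (s : Set ℕ) (Function.onFun Nat.Coprime fun p => p) := by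
    intro p hp q hq hpq
    exact (Nat.coprime_primes (hs p hp) (hs q hq)).2 hpq
  refine ⟨(Nat.chineseRemainderOfFinset (fun p => (r p % p).toNat) (fun p => p) s hs0 hco : ℕ),
    ?_, ?_⟩
  · exact Nat.chineseRemainderOfFinset_lt_prod _ _ hs0 hco
  · intro p hp
    have h1 := (Nat.chineseRemainderOfFinset (fun p => (r p % p).toNat) (fun p => p) s hs0 hco).2 p hp
    have hp0 : (0 : ℤ) < p := by exact_mod_cast (hs p hp).pos
    have h2 : ((r p % p).toNat : ℤ) = r p % p := Int.toNat_of_nonneg (Int.emod_nonneg _ hp0.ne')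
    have h3 := (Int.natCast_modEq_iff.2 h1).symm.dvd
    rw [h2] at h3
    have h4 : (p : ℤ) ∣ r p - r p % p := Int.dvd_self_sub_emod
    have h5 := dvd_sub h3 h4
    have e : (((Nat.chineseRemainderOfFinset (fun p => (r p % p).toNat) (fun p => p) s hs0 hco : ℕ) : ℤ)
        - r p % p) - (r p - r p % p) = ((Nat.chineseRemainderOfFinset (fun p => (r p % p).toNat)
        (fun p => p) s hs0 hco : ℕ) : ℤ) - r p := by ring
    rw [← e]
    exact h5

end Pool.Agent.H6.Cub
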