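import Pool.Agent.H6.Cub.Numer
import Pool.Agent.H33.Cubic.Few

/-!
Long strings of composite values `m ^ 3 + k`.
-/

namespace Pool.Agent.H6.Cub

open Finset Filter Topology
open Pool.Agent.H33.Cubic (IsCube)

theorem long (τ : ℝ) (hτ : 0 < τ) (hτ8 : τ < 1 / 8) : ∀ᶠ y : ℕ in atTop, ∀ M : ℕ,
    (M : ℝ) ≤ y * (Real.log y) ^ (2 - 8 * τ) → ∃ r : ℕ → ℤ, ∀ m : ℤ, |m| ≤ (M : ℤ) →
      ∃ p : ℕ, p.Prime ∧ p ≤ y ∧ (p : ℤ) ∣ m ^ 3 + r p := by
  obtain ⟨C, hC, hw⟩ := prod_wt_le (τ / 4) (by linarith) (by linarith)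
  have hw' : ∀ z : ℕ, 3 ≤ z →
      ∏ p ∈ z.primesBelow, wt p ≤ C * Real.exp (-(2 - τ) * Real.log (Real.log z)) := by
    intro z hz
    have h1 := hw z hz
    have e : (2 : ℝ) - 4 * (τ / 4) = 2 - τ := by ring
    rwa [e] at h1
  filter_upwards [numer τ C hτ hτ8 hC hw', last_primes] with y h1 h2 M hM
  obtain ⟨z, M', hz, hM', hb⟩ := h1
  obtain ⟨r, hr⟩ := cover y M' z (y / 2) hz (Nat.div_le_self y 2) (hb.trans h2)
  refine ⟨r, fun m hm => hr m (hm.trans ?_)⟩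
  have h3 : (M : ℝ) < M' + 1 := lt_of_le_of_lt hM hM'
  have h4 : M < M' + 1 := by exact_mod_cast h3
  omega

/-- composite values from a covering -/
theorem comp_of_dvd (m : ℤ) (k p y M : ℕ) (hp : p.Prime) (hpy : p ≤ y) (hm : |m| ≤ (M : ℤ))
    (hk : M ^ 3 + y < k) (hd : (p : ℤ) ∣ m ^ 3 + k) :
    ∃ a b : ℕ, 1 < a ∧ 1 < b ∧ m ^ 3 + (k : ℤ) = a * b := by
  obtain ⟨c, hc⟩ := hd
  have h1 : -(M : ℤ) ^ 3 ≤ m ^ 3 := by
    have h2 := (abs_le.1 hm).1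
    have h3 : (-(M : ℤ)) ^ 3 ≤ m ^ 3 := Odd.strictMono_pow (by decide) |>.monotone h2
    have h4 : (-(M : ℤ)) ^ 3 = -(M : ℤ) ^ 3 := by ring
    linarith
  have hk' : (M : ℤ) ^ 3 + y < k := by exact_mod_cast hk
  have h5 : (y : ℤ) < p * c := by linarith
  have hpy' : (p : ℤ) ≤ y := by exact_mod_cast hpy
  have hp0 : (0 : ℤ) < p := by exact_mod_cast hp.pos
  have hc1 : 1 < c := by
    by_contra hcon
    push Not at hcon
    have : (p : ℤ) * c ≤ p * 1 := mul_le_mul_of_nonneg_left hcon hp0.le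
    linarith
  refine ⟨p, c.toNat, hp.one_lt, by omega, ?_⟩
  rw [hc, Int.toNat_of_nonneg (by omega)]

open Classical in
theorem count_class (X P k0 B : ℕ) (hP : 0 < P) (hk0 : k0 < P) :
    X / P ≤ ((Icc 1 X).filter (fun k => B < k ∧ k % P = k0)).card + (B + 1) := by
  have h1 : (Ico (B + 1) (X / P)).card ≤ ((Icc 1 X).filter (fun k => B < k ∧ k % P = k0)).card := by
    apply Finset.card_le_card_of_injOn (fun j => k0 + P * j)
    · intro j hj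
      rw [mem_coe, mem_Ico] at hj
      rw [mem_coe, mem_filter, mem_Icc]
      have h2 : j ≤ P * j := Nat.le_mul_of_pos_left j hP
      have h3 : P * (j + 1) ≤ P * (X / P) := Nat.mul_le_mul_left P hj.2
      have h4 : P * (X / P) ≤ X := Nat.mul_div_le X P
      rw [Nat.mul_add, Nat.mul_one] at h3
      dsimp only
      refine ⟨⟨by omega, by omega⟩, by omega, ?_⟩
      rw [Nat.add_mul_mod_self_left, Nat.mod_eq_of_lt hk0]
    · intro a _ b _ hab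
      have hab' : k0 + P * a = k0 + P * b := hab
      exact Nat.eq_of_mul_eq_mul_left hP (by omega)
  rw [Nat.card_Ico] at h1
  omega

/-- the count for a given covering -/
theorem count_good (X M y : ℕ) (r : ℕ → ℤ)
    (hr : ∀ m : ℤ, |m| ≤ (M : ℤ) → ∃ p : ℕ, p.Prime ∧ p ≤ y ∧ (p : ℤ) ∣ m ^ 3 + r p) :
    ((X / 4 ^ y : ℕ) : ℝ) ≤ ((Set.ncard {k : ℕ | 1 ≤ k ∧ k ≤ X ∧ ¬ IsCube k ∧ ∀ m : ℤ,
      |m| ≤ (M : ℤ) → ∃ a b : ℕ, 1 < a ∧ 1 < b ∧ m ^ 3 + (k : ℤ) = a * b} : ℕ) : ℝ) +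
      ((M ^ 3 + y + 1 : ℕ) : ℝ) + ((Nat.sqrt X : ℕ) : ℝ) := by
  classical
  set s := (range (y + 1)).filter Nat.Prime with hs
  obtain ⟨k0, hk0, hk1⟩ := crt s (fun p hp => (mem_filter.1 hp).2) r
  have hP : ∏ p ∈ s, p ≤ 4 ^ y := primorial_le_four_pow y
  have hP0 : 0 < ∏ p ∈ s, p := Finset.prod_pos fun p hp => (mem_filter.1 hp).2.pos
  have h1 := count_class X (∏ p ∈ s, p) k0 (M ^ 3 + y) hP0 hk0
  set P := ∏ p ∈ s, p with hPdef
  have h2 : X / 4 ^ y ≤ X / P := Nat.div_le_div_left hP hP0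
  set A := (Icc 1 X).filter (fun k => M ^ 3 + y < k ∧ k % P = k0) with hA
  set Kc := (Icc 1 X).filter IsCube with hKc
  have h3 : Kc.card ≤ Nat.sqrt X := Pool.Agent.H33.Cubic.card_cubes X
  have hfin : {k : ℕ | 1 ≤ k ∧ k ≤ X ∧ ¬ IsCube k ∧ ∀ m : ℤ,
      |m| ≤ (M : ℤ) → ∃ a b : ℕ, 1 < a ∧ 1 < b ∧ m ^ 3 + (k : ℤ) = a * b}.Finite :=
    (Set.finite_Icc 1 X).subset fun k hk => ⟨hk.1, hk.2.1⟩
  have hsub : ((A \ Kc : Finset ℕ) : Set ℕ) ⊆ {k : ℕ | 1 ≤ k ∧ k ≤ X ∧ ¬ IsCube k ∧ ∀ m : ℤ,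
      |m| ≤ (M : ℤ) → ∃ a b : ℕ, 1 < a ∧ 1 < b ∧ m ^ 3 + (k : ℤ) = a * b} := by
    intro k hk
    rw [mem_coe, Finset.mem_sdiff, hA, hKc, mem_filter, mem_filter, mem_Icc] at hk
    obtain ⟨⟨⟨hk1', hkX⟩, hkB, hkP⟩, hkc⟩ := hk
    refine ⟨hk1', hkX, fun hc => hkc ⟨⟨hk1', hkX⟩, hc⟩, fun m hm => ?_⟩
    obtain ⟨p, hp, hpy, hpd⟩ := hr m hm
    have hps : p ∈ s := by
      rw [hs, mem_filter, mem_range]
      exact ⟨by omega, hp⟩
    refine comp_of_dvd m k p y M hp hpy hm hkB ?_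
    have h4 := hk1 p hps
    have h5 : (p : ℤ) ∣ (k : ℤ) - k0 := by
      have h6 : p ∣ P := Finset.dvd_prod_of_mem (fun p => p) hps
      have h7 : (P : ℤ) ∣ (k : ℤ) - k0 := by
        have h8 : (k : ℤ) % P = k0 := by exact_mod_cast hkP
        exact Int.dvd_self_sub_of_emod_eq h8
      exact (Int.natCast_dvd_natCast.2 h6).trans h7
    have e : m ^ 3 + (k : ℤ) = (m ^ 3 + r p) + ((k : ℤ) - k0) + ((k0 : ℤ) - r p) := by ring
    rw [e]
    exact dvd_add (dvd_add hpd h5) h4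
  have h4 : (A \ Kc).card ≤ Set.ncard {k : ℕ | 1 ≤ k ∧ k ≤ X ∧ ¬ IsCube k ∧ ∀ m : ℤ,
      |m| ≤ (M : ℤ) → ∃ a b : ℕ, 1 < a ∧ 1 < b ∧ m ^ 3 + (k : ℤ) = a * b} := by
    rw [← Set.ncard_coe_finset]
    exact Set.ncard_le_ncard hsub hfin
  have h5 : A.card ≤ (A \ Kc).card + Kc.card := by
    exact Finset.card_le_card_sdiff_add_card (s := A) (t := Kc)
  have h6 : X / 4 ^ y ≤ Set.ncard {k : ℕ | 1 ≤ k ∧ k ≤ X ∧ ¬ IsCube k ∧ ∀ m : ℤ,
      |m| ≤ (M : ℤ) → ∃ a b : ℕ, 1 < a ∧ 1 < b ∧ m ^ 3 + (k : ℤ) = a * b} +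
      (M ^ 3 + y + 1) + Nat.sqrt X := by omega
  exact_mod_cast h6

/-- long strings, for `δ ≤ 1` and `η ≤ 1 / 2` -/
theorem long_strings_aux (δ η : ℝ) (hδ : 0 < δ) (hδ1 : δ ≤ 1) (hη : 0 < η) (hη1 : η ≤ 1 / 2) :
    ∀ᶠ X : ℕ in atTop, (X : ℝ) ^ (1 - η) ≤ ((Set.ncard {k : ℕ | 1 ≤ k ∧ k ≤ X ∧ ¬ IsCube k ∧
      ∀ m : ℤ, |(m : ℝ)| ≤ Real.log X * Real.log (Real.log X) ^ (2 - δ) →
        ∃ a b : ℕ, 1 < a ∧ 1 < b ∧ m ^ 3 + (k : ℤ) = a * b} : ℕ) : ℝ) ∧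
      1 ≤ Real.log (Real.log X) := by
  set τ := δ / 16 with hτ
  have hlong := long τ (by positivity) (by rw [hτ]; linarith)
  have tL : Tendsto (fun X : ℕ => Real.log (X : ℝ)) atTop atTop :=
    Real.tendsto_log_atTop.comp (tendsto_natCast_atTop_atTop (R := ℝ))
  have ty : Tendsto (fun X : ℕ => ⌊η / 4 * Real.log (X : ℝ)⌋₊) atTop atTop :=
    tendsto_nat_floor_atTop.comp (tL.const_mul_atTop (by positivity))
  have e1 := ty.eventually hlong
  have e2 : ∀ᶠ L : ℝ in atTop, L ^ 9 ≤ Real.exp (1 / 2 * L) * (1 / 2) := by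
    have h := (isLittleO_pow_exp_pos_mul_atTop 9 (show (0 : ℝ) < 1 / 2 by norm_num)).bound
      (show (0 : ℝ) < 1 / 2 by norm_num)
    filter_upwards [h, eventually_ge_atTop 0] with L hL hL0
    rw [Real.norm_of_nonneg (by positivity), Real.norm_of_nonneg (Real.exp_pos _).le] at hL
    linarith
  have e3 : ∀ᶠ L : ℝ in atTop, L + 2 ≤ Real.exp (1 / 2 * L) * (1 / 2) := by
    have h := (isLittleO_pow_exp_pos_mul_atTop 1 (show (0 : ℝ) < 1 / 2 by norm_num)).bound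
      (show (0 : ℝ) < 1 / 4 by norm_num)
    filter_upwards [h, eventually_ge_atTop 2] with L hL hL0
    rw [Real.norm_of_nonneg (by positivity), Real.norm_of_nonneg (Real.exp_pos _).le, pow_one] at hL
    linarith
  have e4 : ∀ᶠ L : ℝ in atTop, 32 / η ≤ (Real.log L) ^ (δ / 2) :=
    ((tendsto_rpow_atTop (by positivity)).comp Real.tendsto_log_atTop).eventually_ge_atTop _
  have e5 : ∀ᶠ L : ℝ in atTop, 2 * Real.log (8 / η) + 1 ≤ Real.log L :=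
    Real.tendsto_log_atTop.eventually_ge_atTop _
  filter_upwards [e1, tL.eventually e2, tL.eventually e3, tL.eventually e4, tL.eventually e5,
    tL.eventually_ge_atTop (8 / η + 16), eventually_ge_atTop 1] with X h1 h2 h3 h4 h5 h6 h7
  set L := Real.log (X : ℝ) with hL
  set l := Real.log L with hl
  set y := ⌊η / 4 * L⌋₊ with hy
  have h8η : 16 ≤ 8 / η := by
    rw [le_div_iff₀ hη]
    linarith
  have hL0 : 0 < L := by linarith
  have hX : (1 : ℝ) ≤ X := by exact_mod_cast h7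
  have hexpL : Real.exp L = X := Real.exp_log (by linarith)
  have hlog8 : 1 ≤ Real.log (8 / η) := by
    rw [Real.le_log_iff_exp_le (by positivity)]
    have := Real.exp_one_lt_d9
    linarith
  have hl1 : 1 ≤ l := by linarith
  have hl0 : 0 < l := by linarith
  -- y
  have hy1 : (y : ℝ) ≤ η / 4 * L := Nat.floor_le (by positivity)
  have hy2 : η / 4 * L < y + 1 := Nat.lt_floor_add_one _
  have hηL : 8 ≤ η * L := by
    have : η * (8 / η + 16) ≤ η * L := mul_le_mul_of_nonneg_left h6 hη.le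
    have e : η * (8 / η + 16) = 8 + 16 * η := by field_simp
    rw [e] at this
    linarith
  have hy3 : η / 8 * L ≤ y := by
    have e : η / 8 * L = η / 4 * L - η * L / 8 := by ring
    rw [e]
    linarith
  have hlogy : l / 2 ≤ Real.log y := by
    have h8 := Real.log_le_log (by positivity) hy3
    rw [Real.log_mul (by positivity) hL0.ne'] at h8
    have e : Real.log (η / 8) = - Real.log (8 / η) := by
      rw [← Real.log_inv, inv_div]
    rw [e] at h8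
    linarith
  -- M
  set M := ⌊L * l ^ (2 - δ)⌋₊ with hM
  have hM1 : (M : ℝ) ≤ L * l ^ (2 - δ) := Nat.floor_le (by positivity)
  have h8τ : 2 - 8 * τ = 2 - δ / 2 := by rw [hτ]; ring
  have hMy : (M : ℝ) ≤ y * (Real.log y) ^ (2 - 8 * τ) := by
    rw [h8τ]
    have h8 : (l / 2) ^ (2 - δ / 2) ≤ (Real.log y) ^ (2 - δ / 2) :=
      Real.rpow_le_rpow (by positivity) hlogy (by linarith)
    have h9 : l ^ (2 - δ / 2) / 4 ≤ (l / 2) ^ (2 - δ / 2) := by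
      rw [Real.div_rpow hl0.le (by norm_num)]
      apply div_le_div_of_nonneg_left (by positivity) (by positivity)
      calc (2 : ℝ) ^ (2 - δ / 2) ≤ 2 ^ (2 : ℝ) :=
            Real.rpow_le_rpow_of_exponent_le (by norm_num) (by linarith)
        _ = 4 := by norm_num
    have h10 : l ^ (2 - δ / 2) = l ^ (2 - δ) * l ^ (δ / 2) := by
      rw [← Real.rpow_add hl0]
      congr 1
      ring
    calc (M : ℝ) ≤ L * l ^ (2 - δ) := hM1
      _ = η / 8 * L * (l ^ (2 - δ) * (32 / η) / 4) := by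
          field_simp
          ring
      _ ≤ η / 8 * L * (l ^ (2 - δ) * l ^ (δ / 2) / 4) := by
          apply mul_le_mul_of_nonneg_left _ (by positivity)
          apply div_le_div_of_nonneg_right _ (by norm_num)
          exact mul_le_mul_of_nonneg_left h4 (by positivity)
      _ = η / 8 * L * (l ^ (2 - δ / 2) / 4) := by rw [h10]
      _ ≤ η / 8 * L * (Real.log y) ^ (2 - δ / 2) :=
          mul_le_mul_of_nonneg_left (h9.trans h8) (by positivity)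
      _ ≤ y * (Real.log y) ^ (2 - δ / 2) := by
          apply mul_le_mul_of_nonneg_right hy3
          apply Real.rpow_nonneg
          linarith
  have hlL : l ≤ L := by
    have := Real.log_le_sub_one_of_pos hL0
    linarith
  have hM3 : (M : ℝ) ≤ L ^ 3 := by
    refine hM1.trans ?_
    have h8 : l ^ (2 - δ) ≤ L ^ 2 := by
      calc l ^ (2 - δ) ≤ l ^ (2 : ℝ) := Real.rpow_le_rpow_of_exponent_le hl1 (by linarith)
        _ = l ^ 2 := by norm_num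
        _ ≤ L ^ 2 := pow_le_pow_left₀ hl0.le hlL 2
    calc L * l ^ (2 - δ) ≤ L * L ^ 2 := mul_le_mul_of_nonneg_left h8 hL0.le
      _ = L ^ 3 := by ring
  obtain ⟨r, hr⟩ := h1 M hMy
  have hcount := count_good X M y r hr
  -- the two sets
  have hset : Set.ncard {k : ℕ | 1 ≤ k ∧ k ≤ X ∧ ¬ IsCube k ∧ ∀ m : ℤ,
      |m| ≤ (M : ℤ) → ∃ a b : ℕ, 1 < a ∧ 1 < b ∧ m ^ 3 + (k : ℤ) = a * b} ≤
      Set.ncard {k : ℕ | 1 ≤ k ∧ k ≤ X ∧ ¬ IsCube k ∧
      ∀ m : ℤ, |(m : ℝ)| ≤ L * l ^ (2 - δ) →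
        ∃ a b : ℕ, 1 < a ∧ 1 < b ∧ m ^ 3 + (k : ℤ) = a * b} := by
    apply Set.ncard_le_ncard
    · rintro k ⟨hk1, hk2, hk3, hk4⟩
      refine ⟨hk1, hk2, hk3, fun m hm => hk4 m ?_⟩
      have h8 : ((m.natAbs : ℕ) : ℝ) ≤ L * l ^ (2 - δ) := by
        rw [Nat.cast_natAbs]
        push_cast
        exact hm
      have h9 : m.natAbs ≤ M := Nat.le_floor h8
      rw [Int.abs_eq_natAbs]
      exact_mod_cast h9
    · exact (Set.finite_Icc 1 X).subset fun k hk => ⟨hk.1, hk.2.1⟩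
  refine ⟨?_, hl1⟩
  have hset' : ((Set.ncard {k : ℕ | 1 ≤ k ∧ k ≤ X ∧ ¬ IsCube k ∧ ∀ m : ℤ,
      |m| ≤ (M : ℤ) → ∃ a b : ℕ, 1 < a ∧ 1 < b ∧ m ^ 3 + (k : ℤ) = a * b} : ℕ) : ℝ) ≤
      ((Set.ncard {k : ℕ | 1 ≤ k ∧ k ≤ X ∧ ¬ IsCube k ∧
      ∀ m : ℤ, |(m : ℝ)| ≤ L * l ^ (2 - δ) →
        ∃ a b : ℕ, 1 < a ∧ 1 < b ∧ m ^ 3 + (k : ℤ) = a * b} : ℕ) : ℝ) := by exact_mod_cast hset
  refine le_trans ?_ hset'
  -- numbers
  have h4y : (4 : ℝ) ^ y ≤ Real.exp (η / 2 * L) := by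
    have h8 : (4 : ℝ) ^ y = Real.exp (Real.log 4 * y) := by
      rw [← Real.rpow_natCast, Real.rpow_def_of_pos (by norm_num)]
    rw [h8]
    apply Real.exp_le_exp.2
    have h9 := log_four_le
    have h10 : (0 : ℝ) ≤ y := Nat.cast_nonneg y
    calc Real.log 4 * y ≤ 2 * y := mul_le_mul_of_nonneg_right (by linarith) h10
      _ ≤ 2 * (η / 4 * L) := mul_le_mul_of_nonneg_left hy1 (by norm_num)
      _ = η / 2 * L := by ring
  have hdiv : Real.exp ((1 - η / 2) * L) - 1 ≤ ((X / 4 ^ y : ℕ) : ℝ) := by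
    have h8 : (X : ℝ) / (4 ^ y : ℕ) < ((X / 4 ^ y : ℕ) : ℝ) + 1 := by
      rw [div_lt_iff₀ (by positivity), mul_comm]
      exact_mod_cast Nat.lt_mul_div_succ X (show 0 < 4 ^ y by positivity)
    have h9 : Real.exp ((1 - η / 2) * L) ≤ (X : ℝ) / (4 ^ y : ℕ) := by
      push_cast
      rw [le_div_iff₀ (by positivity)]
      calc Real.exp ((1 - η / 2) * L) * 4 ^ y ≤ Real.exp ((1 - η / 2) * L) * Real.exp (η / 2 * L) :=
            mul_le_mul_of_nonneg_left h4y (Real.exp_pos _).le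
        _ = Real.exp L := by
            rw [← Real.exp_add]
            congr 1
            ring
        _ = X := hexpL
    linarith
  have hsqrt : ((Nat.sqrt X : ℕ) : ℝ) ≤ Real.exp (1 / 2 * L) := by
    have h8 : ((Nat.sqrt X : ℕ) : ℝ) ^ 2 ≤ X := by exact_mod_cast Nat.sqrt_le' X
    have h9 : Real.exp (1 / 2 * L) ^ 2 = X := by
      rw [← Real.exp_nat_mul, ← hexpL]
      congr 1
      push_cast
      ring
    rw [← h9] at h8
    exact (pow_le_pow_iff_left₀ (Nat.cast_nonneg _) (Real.exp_pos _).le (by norm_num)).1 h8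
  have hM9 : ((M ^ 3 + y + 1 : ℕ) : ℝ) + 1 ≤ Real.exp (1 / 2 * L) := by
    push_cast
    have h8 : (M : ℝ) ^ 3 ≤ L ^ 9 := by
      calc (M : ℝ) ^ 3 ≤ (L ^ 3) ^ 3 := pow_le_pow_left₀ (Nat.cast_nonneg M) hM3 3
        _ = L ^ 9 := by ring
    have h9 : (y : ℝ) ≤ L := by
      refine hy1.trans ?_
      have : η / 4 * L ≤ 1 * L := mul_le_mul_of_nonneg_right (by linarith) hL0.le
      linarith
    linarith
  have hU1 : Real.exp ((1 - η) * L) ≤ Real.exp ((1 - η / 2) * L) / 4 := by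
    rw [le_div_iff₀ (by norm_num)]
    have h8 : (4 : ℝ) ≤ Real.exp (η / 2 * L) := by
      have h9 := Real.add_one_le_exp (η / 2 * L)
      linarith
    calc Real.exp ((1 - η) * L) * 4 ≤ Real.exp ((1 - η) * L) * Real.exp (η / 2 * L) :=
          mul_le_mul_of_nonneg_left h8 (Real.exp_pos _).le
      _ = Real.exp ((1 - η / 2) * L) := by
          rw [← Real.exp_add]
          congr 1
          ring
  have hU2 : Real.exp (1 / 2 * L) ≤ Real.exp ((1 - η / 2) * L) / 4 := by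
    rw [le_div_iff₀ (by norm_num)]
    have h8 : (4 : ℝ) ≤ Real.exp ((1 / 2 - η / 2) * L) := by
      have h9 := Real.add_one_le_exp ((1 / 2 - η / 2) * L)
      have h10 : 1 / 4 * L ≤ (1 / 2 - η / 2) * L := mul_le_mul_of_nonneg_right (by linarith) hL0.le
      linarith
    calc Real.exp (1 / 2 * L) * 4 ≤ Real.exp (1 / 2 * L) * Real.exp ((1 / 2 - η / 2) * L) :=
          mul_le_mul_of_nonneg_left h8 (Real.exp_pos _).le
      _ = Real.exp ((1 - η / 2) * L) := by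
          rw [← Real.exp_add]
          congr 1
          ring
  have hXη : (X : ℝ) ^ (1 - η) = Real.exp ((1 - η) * L) := by
    rw [Real.rpow_def_of_pos (by linarith), mul_comm]
  rw [hXη]
  have hU0 := Real.exp_pos ((1 - η / 2) * L)
  linarith

/-- **Long strings.** -/
theorem long_strings (δ η : ℝ) (hδ : 0 < δ) (hη : 0 < η) :
    ∃ X₀ : ℕ, ∀ X : ℕ, X₀ ≤ X →
      (X : ℝ) ^ (1 - η) ≤ ((Set.ncard {k : ℕ | 1 ≤ k ∧ k ≤ X ∧ ¬ IsCube k ∧
      ∀ m : ℤ, |(m : ℝ)| ≤ Real.log X * Real.log (Real.log X) ^ (2 - δ) →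
        ∃ a b : ℕ, 1 < a ∧ 1 < b ∧ m ^ 3 + (k : ℤ) = a * b} : ℕ) : ℝ) := by
  have h := long_strings_aux (min δ 1) (min η (1 / 2)) (by positivity) (min_le_right _ _)
    (by positivity) (min_le_right _ _)
  obtain ⟨X₀, hX₀⟩ := eventually_atTop.1 h
  refine ⟨max X₀ 3, fun X hX => ?_⟩
  obtain ⟨h1, h2⟩ := hX₀ X ((le_max_left _ _).trans hX)
  have hX3 : 3 ≤ X := (le_max_right _ _).trans hX
  have hX1 : (1 : ℝ) ≤ X := by exact_mod_cast (by omega : 1 ≤ X)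
  have h3 : (X : ℝ) ^ (1 - η) ≤ (X : ℝ) ^ (1 - min η (1 / 2)) :=
    Real.rpow_le_rpow_of_exponent_le hX1 (by have := min_le_left η (1 / 2); linarith)
  refine h3.trans (h1.trans ?_)
  have hlog : 0 ≤ Real.log X := Real.log_nonneg hX1
  have h4 : Set.ncard {k : ℕ | 1 ≤ k ∧ k ≤ X ∧ ¬ IsCube k ∧
      ∀ m : ℤ, |(m : ℝ)| ≤ Real.log X * Real.log (Real.log X) ^ (2 - min δ 1) →
        ∃ a b : ℕ, 1 < a ∧ 1 < b ∧ m ^ 3 + (k : ℤ) = a * b} ≤
      Set.ncard {k : ℕ | 1 ≤ k ∧ k ≤ X ∧ ¬ IsCube k ∧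
      ∀ m : ℤ, |(m : ℝ)| ≤ Real.log X * Real.log (Real.log X) ^ (2 - δ) →
        ∃ a b : ℕ, 1 < a ∧ 1 < b ∧ m ^ 3 + (k : ℤ) = a * b} := by
    apply Set.ncard_le_ncard
    · rintro k ⟨hk1, hk2, hk3, hk4⟩
      refine ⟨hk1, hk2, hk3, fun m hm => hk4 m (hm.trans ?_)⟩
      apply mul_le_mul_of_nonneg_left _ hlog
      apply Real.rpow_le_rpow_of_exponent_le h2
      have := min_le_left δ 1
      linarith
    · exact (Set.finite_Icc 1 X).subset fun k hk => ⟨hk.1, hk.2.1⟩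
  exact_mod_cast h4

end Pool.Agent.H6.Cub
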