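import Pool.Agent.H6.Cub.Cover

/-!
The numerical inequality.
-/

namespace Pool.Agent.H6.Cub

open Finset Filter Topology

theorem ev_log (τ K : ℝ) (hτ : 0 < τ) (hK : 0 < K) :
    ∀ᶠ L : ℝ in atTop, K * Real.log L + K ≤ L ^ τ := by
  have h1 := (isLittleO_log_rpow_atTop hτ).bound (show 0 < 1 / (2 * K) by positivity)
  have h2 : ∀ᶠ L : ℝ in atTop, 2 * K ≤ L ^ τ := (tendsto_rpow_atTop hτ).eventually_ge_atTop _
  filter_upwards [h1, h2, eventually_ge_atTop 1] with L hL1 hL2 hL3
  have h3 : 0 ≤ Real.log L := Real.log_nonneg hL3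
  have h4 : 0 ≤ L ^ τ := Real.rpow_nonneg (by linarith) τ
  rw [Real.norm_of_nonneg h3, Real.norm_of_nonneg h4] at hL1
  have h5 : K * Real.log L ≤ L ^ τ / 2 := by
    calc K * Real.log L ≤ K * (1 / (2 * K) * L ^ τ) := mul_le_mul_of_nonneg_left hL1 hK.le
      _ = L ^ τ / 2 := by field_simp
  linarith

theorem numer (τ C : ℝ) (hτ : 0 < τ) (hτ8 : τ < 1 / 8) (hC : 0 < C)
    (hw : ∀ z : ℕ, 3 ≤ z →
      ∏ p ∈ z.primesBelow, wt p ≤ C * Real.exp (-(2 - τ) * Real.log (Real.log z))) :
    ∀ᶠ y : ℕ in atTop, ∃ z M : ℕ, z ≤ y / 2 + 1 ∧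
      (y : ℝ) * (Real.log y) ^ (2 - 8 * τ) < M + 1 ∧
      (∏ p ∈ z.primesBelow, wt p) *
      (2 * ((((Icc 1 M).filter (fun n => n ∈ z.smoothNumbers)).card : ℝ) +
      ∑ q ∈ (Ioc (y / 2) M).filter Nat.Prime, (M : ℝ) * (1 / q)) + 1) ≤
      (y : ℝ) / (4 * Real.log y) := by
  have tL : Tendsto (fun y : ℕ => Real.log (y : ℝ)) atTop atTop :=
    Real.tendsto_log_atTop.comp (tendsto_natCast_atTop_atTop (R := ℝ))
  have e1 := tL.eventually (ev_log τ 1000 hτ (by norm_num))
  have e2 := tL.eventually (ev_log (5 * τ) (1200 * C) (by linarith) (by positivity))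
  have e3 : ∀ᶠ L : ℝ in atTop, (3 : ℝ) ≤ L ^ (1 - τ) :=
    (tendsto_rpow_atTop (by linarith)).eventually_ge_atTop _
  have e4 := tL.eventually e3
  have e5 : ∀ᶠ L : ℝ in atTop, (1 : ℝ) ≤ Real.log L := Real.tendsto_log_atTop.eventually_ge_atTop 1
  have e6 := tL.eventually e5
  filter_upwards [e1, e2, e4, e6, tL.eventually_ge_atTop 20, eventually_ge_atTop 100] with y h1 h2 h3 h4 h5 h6
  set L := Real.log (y : ℝ) with hL
  set l := Real.log L with hl
  have hy : (100 : ℝ) ≤ y := by exact_mod_cast h6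
  have hL0 : 0 < L := by linarith
  have hexpL : Real.exp L = y := Real.exp_log (by linarith)
  have hexpl : Real.exp l = L := Real.exp_log hL0
  have rp : ∀ a : ℝ, L ^ a = Real.exp (l * a) := fun a => Real.rpow_def_of_pos hL0 a
  set z := ⌊Real.exp (L ^ (1 - τ))⌋₊ with hz
  set M := ⌊(y : ℝ) * L ^ (2 - 8 * τ)⌋₊ with hM
  set h := y / 2 with hh
  have hln2 := Real.log_two_lt_d9
  have hln2' := Real.log_two_gt_d9
  -- bounds for z
  have hz1 : (z : ℝ) ≤ Real.exp (L ^ (1 - τ)) := Nat.floor_le (Real.exp_pos _).le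
  have hz2 : Real.exp (L ^ (1 - τ)) < z + 1 := Nat.lt_floor_add_one _
  have hexp3 : (16 : ℝ) ≤ Real.exp (L ^ (1 - τ)) := by
    have h7 : Real.exp 3 ≤ Real.exp (L ^ (1 - τ)) := Real.exp_le_exp.2 h3
    have h8 : (16 : ℝ) ≤ Real.exp 3 := by
      have h9 := Real.exp_one_gt_d9
      have h10 : Real.exp 3 = Real.exp 1 ^ 3 := by rw [← Real.exp_nat_mul]; norm_num
      rw [h10]
      calc (16 : ℝ) ≤ 2.7 ^ 3 := by norm_num
        _ ≤ Real.exp 1 ^ 3 := pow_le_pow_left₀ (by norm_num) (by linarith) 3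
    linarith
  have hz8 : 8 ≤ z := by
    have : (15 : ℝ) < z := by linarith
    have : 15 < z := by exact_mod_cast this
    omega
  have hzr : (8 : ℝ) ≤ z := by exact_mod_cast hz8
  have hlz1 : Real.log z ≤ L ^ (1 - τ) := by
    have := Real.log_le_log (by linarith) hz1
    rwa [Real.log_exp] at this
  have hlz2 : L ^ (1 - τ) / 2 ≤ Real.log z := by
    have h7 : Real.exp (L ^ (1 - τ)) / 2 ≤ z := by linarith
    have h8 := Real.log_le_log (by positivity) h7
    rw [Real.log_div (Real.exp_pos _).ne' (by norm_num), Real.log_exp] at h8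
    linarith
  have hLt : 2 ≤ L ^ τ := by linarith
  have hmulL : L ^ (1 - τ) * L ^ τ = L := by
    rw [← Real.rpow_add hL0]
    norm_num
  have hLh : L ^ (1 - τ) ≤ L / 2 := by
    have h7 : 0 ≤ L ^ (1 - τ) := Real.rpow_nonneg hL0.le _
    have h8 : L ^ (1 - τ) * 2 ≤ L ^ (1 - τ) * L ^ τ := mul_le_mul_of_nonneg_left hLt h7
    linarith
  have hlz0 : 0 < Real.log z := by linarith
  -- z small
  have hzh : z ≤ h + 1 := by
    have h7 : (z : ℝ) ≤ Real.exp (L / 2) := hz1.trans (Real.exp_le_exp.2 hLh)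
    have h8 : Real.exp (L / 2) ^ 2 = y := by
      rw [← Real.exp_nat_mul, ← hexpL]
      congr 1
      push_cast
      ring
    have h9 : (z : ℝ) ^ 2 ≤ y := by
      rw [← h8]
      exact pow_le_pow_left₀ (by linarith) h7 2
    have h10 : z ^ 2 ≤ y := by exact_mod_cast h9
    have h11 : 2 * z ≤ z ^ 2 := by nlinarith
    omega
  -- bounds for M
  have hMp : 1 ≤ L ^ (2 - 8 * τ) := Real.one_le_rpow (by linarith) (by linarith)
  have hM1 : (M : ℝ) ≤ y * L ^ (2 - 8 * τ) := Nat.floor_le (by positivity)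
  have hM2 : y ≤ M := by
    apply Nat.le_floor
    have h7 : (y : ℝ) * 1 ≤ y * L ^ (2 - 8 * τ) := mul_le_mul_of_nonneg_left hMp (by linarith)
    linarith
  have hM2' : (y : ℝ) ≤ M := by exact_mod_cast hM2
  have hM3 : (y : ℝ) * L ^ (2 - 8 * τ) < M + 1 := Nat.lt_floor_add_one _
  have hlM : L ≤ Real.log M := Real.log_le_log (by linarith) hM2'
  -- smooth numbers
  have hs := smooth_count M z (by omega) hz8
  have hllz : Real.log (Real.log z) ≤ l := by
    apply Real.log_le_log hlz0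
    linarith
  have hq : L ^ τ ≤ Real.log M / Real.log z := by
    rw [le_div_iff₀ hlz0]
    have h7 : L ^ τ * Real.log z ≤ L ^ τ * L ^ (1 - τ) :=
      mul_le_mul_of_nonneg_left hlz1 (by linarith)
    have h8 : L ^ τ * L ^ (1 - τ) = L := by rw [mul_comm]; exact hmulL
    linarith
  have hs2 : (((Icc 1 M).filter (fun n => n ∈ z.smoothNumbers)).card : ℝ) ≤ M / L := by
    refine hs.trans ?_
    have e7 : (M : ℝ) / L = M * Real.exp (-l) := by
      rw [Real.exp_neg, hexpl, div_eq_mul_inv]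
    rw [e7]
    apply mul_le_mul_of_nonneg_left _ (by linarith)
    apply Real.exp_le_exp.2
    linarith
  -- large primes
  set J := ⌈5 * l⌉₊ with hJ
  have hJ1 : 5 * l ≤ J := Nat.le_ceil _
  have hJ2 : (J : ℝ) < 5 * l + 1 := Nat.ceil_lt_add_one (by linarith)
  have hh1 : (y : ℝ) / 4 ≤ h := by
    have : y ≤ 4 * h := by omega
    have : (y : ℝ) ≤ 4 * h := by exact_mod_cast this
    linarith
  have hh2 : (y : ℝ) ≤ 3 * h := by
    have : y ≤ 3 * h := by omega
    exact_mod_cast this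
  have hlh : L / 2 ≤ Real.log h := by
    have h7 := Real.log_le_log (by linarith) hh1
    rw [Real.log_div (by linarith) (by norm_num)] at h7
    have := log_four_le
    linarith
  have hpowJ : L ^ 3 ≤ (2 : ℝ) ^ J := by
    rw [← Real.log_le_log_iff (by positivity) (by positivity), Real.log_pow, Real.log_pow]
    push_cast
    have h7 : (5 * l) * Real.log 2 ≤ J * Real.log 2 := mul_le_mul_of_nonneg_right hJ1 (by linarith)
    have h8 : (5 * l) * 0.6 ≤ (5 * l) * Real.log 2 := mul_le_mul_of_nonneg_left (by linarith) (by linarith)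
    linarith
  have hMJ : M ≤ 2 ^ J * h := by
    have h7 : L ^ (2 - 8 * τ) ≤ L ^ 2 := by
      have : L ^ (2 - 8 * τ) ≤ L ^ (2 : ℝ) := Real.rpow_le_rpow_of_exponent_le (by linarith) (by linarith)
      rwa [Real.rpow_ofNat] at this
    have h8 : (M : ℝ) ≤ 2 ^ J * h := by
      have hh0 : (0 : ℝ) ≤ h := Nat.cast_nonneg h
      calc (M : ℝ) ≤ y * L ^ (2 - 8 * τ) := hM1
        _ ≤ (3 * h) * L ^ 2 := by
            apply mul_le_mul hh2 h7 (by positivity) (by positivity)
        _ = (3 * L ^ 2) * h := by ring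
        _ ≤ L ^ 3 * h := by
            apply mul_le_mul_of_nonneg_right _ hh0
            have h9 : L ^ 3 = L * L ^ 2 := by ring
            rw [h9]
            exact mul_le_mul_of_nonneg_right (by linarith) (sq_nonneg L)
        _ ≤ 2 ^ J * h := mul_le_mul_of_nonneg_right hpowJ hh0
    exact_mod_cast h8
  have hsum : ∑ q ∈ (Ioc h M).filter Nat.Prime, (M : ℝ) * (1 / q) ≤ M * (36 * l / L) := by
    rw [← Finset.mul_sum]
    apply mul_le_mul_of_nonneg_left _ (by linarith)
    have h7 : ∑ q ∈ (Ioc h M).filter Nat.Prime, (1 : ℝ) / q ≤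
        ∑ q ∈ (Ioc h (2 ^ J * h)).filter Nat.Prime, (1 : ℝ) / q := by
      apply Finset.sum_le_sum_of_subset_of_nonneg
      · intro q hq
        rw [mem_filter, mem_Ioc] at hq ⊢
        exact ⟨⟨hq.1.1, hq.1.2.trans hMJ⟩, hq.2⟩
      · intro q _ _
        positivity
    have h8 := dyadic_sum h (by omega) J
    refine h7.trans (h8.trans ?_)
    rw [div_le_div_iff₀ (by linarith) hL0]
    have hJ6 : (J : ℝ) ≤ 6 * l := by linarith
    calc 3 * (J : ℝ) * L ≤ 3 * (6 * l) * L := by
          apply mul_le_mul_of_nonneg_right _ hL0.le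
          linarith
      _ = 36 * l * (L / 2) := by ring
      _ ≤ 36 * l * Real.log h := by
          apply mul_le_mul_of_nonneg_left hlh
          linarith
  -- the middle stage
  have hmid : 2 * ((((Icc 1 M).filter (fun n => n ∈ z.smoothNumbers)).card : ℝ) +
      ∑ q ∈ (Ioc h M).filter Nat.Prime, (M : ℝ) * (1 / q)) + 1 ≤ 75 * (M * l / L) := by
    have hMl1 : (M : ℝ) * 1 ≤ M * l := mul_le_mul_of_nonneg_left h4 (by linarith)
    have h7 : (M : ℝ) / L ≤ M * l / L := by
      apply div_le_div_of_nonneg_right _ hL0.le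
      linarith
    have h8 : (1 : ℝ) ≤ M * l / L := by
      rw [le_div_iff₀ hL0]
      have : L ≤ y := by
        have := Real.log_le_sub_one_of_pos (show (0 : ℝ) < y by linarith)
        linarith
      linarith
    have h9 : (M : ℝ) * (36 * l / L) = 36 * (M * l / L) := by ring
    linarith
  -- the product
  have hllz2 : (1 - τ) * l - Real.log 2 ≤ Real.log (Real.log z) := by
    have h7 := Real.log_le_log (by positivity) hlz2
    rw [Real.log_div (by positivity) (by norm_num), Real.log_rpow hL0] at h7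
    exact h7
  have hprod : ∏ p ∈ z.primesBelow, wt p ≤ 4 * C * Real.exp (-(2 - 3 * τ) * l) := by
    refine (hw z (by omega)).trans ?_
    have h7 : Real.exp (-(2 - τ) * Real.log (Real.log z)) ≤
        Real.exp (2 * Real.log 2 + -(2 - 3 * τ) * l) := by
      apply Real.exp_le_exp.2
      have h8 : (2 - τ) * ((1 - τ) * l - Real.log 2) ≤ (2 - τ) * Real.log (Real.log z) :=
        mul_le_mul_of_nonneg_left hllz2 (by linarith)
      have h9 : (2 - τ) * ((1 - τ) * l - Real.log 2) =
        (2 - 3 * τ) * l - 2 * Real.log 2 + τ ^ 2 * l + τ * Real.log 2 := by ring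
      have h10 : 0 ≤ τ ^ 2 * l := mul_nonneg (sq_nonneg τ) (by linarith)
      have h11 : 0 ≤ τ * Real.log 2 := mul_nonneg hτ.le (by linarith)
      linarith
    have h8 : Real.exp (2 * Real.log 2 + -(2 - 3 * τ) * l) = 4 * Real.exp (-(2 - 3 * τ) * l) := by
      rw [Real.exp_add]
      congr 1
      have : (2 : ℝ) * Real.log 2 = Real.log 4 := by
        have h9 : (4 : ℝ) = 2 ^ 2 := by norm_num
        rw [h9, Real.log_pow]
        norm_num
      rw [this, Real.exp_log (by norm_num)]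
    rw [h8] at h7
    calc C * Real.exp (-(2 - τ) * Real.log (Real.log z)) ≤ C * (4 * Real.exp (-(2 - 3 * τ) * l)) :=
          mul_le_mul_of_nonneg_left h7 hC.le
      _ = _ := by ring
  refine ⟨z, M, hzh, hM3, ?_⟩
  have hw0 : 0 ≤ ∏ p ∈ z.primesBelow, wt p :=
    Finset.prod_nonneg fun p hp => wt_nonneg p (Nat.prime_of_mem_primesBelow hp)
  have hMl : 0 ≤ (M : ℝ) * l / L := by positivity
  calc (∏ p ∈ z.primesBelow, wt p) *
      (2 * ((((Icc 1 M).filter (fun n => n ∈ z.smoothNumbers)).card : ℝ) +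
      ∑ q ∈ (Ioc h M).filter Nat.Prime, (M : ℝ) * (1 / q)) + 1)
      ≤ (∏ p ∈ z.primesBelow, wt p) * (75 * (M * l / L)) := mul_le_mul_of_nonneg_left hmid hw0
    _ ≤ (4 * C * Real.exp (-(2 - 3 * τ) * l)) * (75 * (M * l / L)) :=
        mul_le_mul_of_nonneg_right hprod (by positivity)
    _ ≤ (4 * C * Real.exp (-(2 - 3 * τ) * l)) * (75 * ((y * L ^ (2 - 8 * τ)) * l / L)) := by
        apply mul_le_mul_of_nonneg_left _ (by positivity)
        apply mul_le_mul_of_nonneg_left _ (by norm_num)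
        apply div_le_div_of_nonneg_right _ hL0.le
        exact mul_le_mul_of_nonneg_right hM1 (by linarith)
    _ = (y / L) * (300 * C * l * Real.exp (-(5 * τ * l))) := by
        rw [rp]
        have h7 : Real.exp (-(2 - 3 * τ) * l) * Real.exp (l * (2 - 8 * τ)) = Real.exp (-(5 * τ * l)) := by
          rw [← Real.exp_add]
          congr 1
          ring
        rw [← h7]
        ring
    _ ≤ (y / L) * (1 / 4) := by
        apply mul_le_mul_of_nonneg_left _ (by positivity)
        rw [Real.exp_neg, ← div_eq_mul_inv, div_le_iff₀ (Real.exp_pos _)]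
        have h7 : L ^ (5 * τ) = Real.exp (5 * τ * l) := by
          rw [rp]
          congr 1
          ring
        rw [h7] at h2
        linarith
    _ = (y : ℝ) / (4 * L) := by
        field_simp

end Pool.Agent.H6.Cub
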