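import Pool.Agent.H6.Cub.Sums

/-!
Upper bounds: primes in dyadic ranges, smooth numbers (Rankin).
-/

namespace Pool.Agent.H6.Cub

open Finset Filter Topology

theorem log_four_le : Real.log 4 ≤ 1.4 := by
  have h : Real.log 4 = 2 * Real.log 2 := by
    have : (4 : ℝ) = 2 ^ 2 := by norm_num
    rw [this, Real.log_pow]
    norm_num
  rw [h]
  have := Real.log_two_lt_d9
  linarith

theorem dyadic (u : ℕ) (hu : 2 ≤ u) :
    ∑ q ∈ (Ioc u (2 * u)).filter Nat.Prime, (1 : ℝ) / q ≤ 3 / Real.log u := by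
  have hu' : (2 : ℝ) ≤ u := by exact_mod_cast hu
  have hlog : 0 < Real.log u := Real.log_pos (by linarith)
  have h1 : ∑ q ∈ (Ioc u (2 * u)).filter Nat.Prime, (1 : ℝ) / q ≤
      ∑ q ∈ (Ioc u (2 * u)).filter Nat.Prime, Real.log q / (u * Real.log u) := by
    apply Finset.sum_le_sum
    intro q hq
    rw [mem_filter, mem_Ioc] at hq
    have hq' : (u : ℝ) < q := by exact_mod_cast hq.1.1
    rw [div_le_div_iff₀ (by linarith) (by positivity), one_mul]
    have h2 : Real.log u ≤ Real.log q := Real.log_le_log (by linarith) hq'.le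
    calc (u : ℝ) * Real.log u ≤ q * Real.log q := by
          apply mul_le_mul hq'.le h2 hlog.le (by linarith)
      _ = Real.log q * q := by ring
  refine h1.trans ?_
  rw [← Finset.sum_div, div_le_div_iff₀ (by positivity) hlog]
  have h3 : ∑ q ∈ (Ioc u (2 * u)).filter Nat.Prime, Real.log q ≤ Real.log 4 * (2 * u) := by
    have h4 := Chebyshev.theta_le_log4_mul_x (x := ((2 * u : ℕ) : ℝ)) (by positivity)
    unfold Chebyshev.theta at h4
    rw [Nat.floor_natCast] at h4
    push_cast at h4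
    refine le_trans ?_ h4
    apply Finset.sum_le_sum_of_subset_of_nonneg
    · intro q hq
      rw [mem_filter, mem_Ioc] at hq ⊢
      exact ⟨⟨by omega, hq.1.2⟩, hq.2⟩
    · intro q hq _
      rw [mem_filter, mem_Ioc] at hq
      exact Real.log_nonneg (by exact_mod_cast hq.1.1)
  have h5 : ∑ q ∈ (Ioc u (2 * u)).filter Nat.Prime, Real.log q ≤ 3 * u := by
    have := log_four_le
    nlinarith
  calc (∑ q ∈ (Ioc u (2 * u)).filter Nat.Prime, Real.log q) * Real.log u ≤ 3 * u * Real.log u :=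
        mul_le_mul_of_nonneg_right h5 hlog.le
    _ = 3 * (u * Real.log u) := by ring

theorem dyadic_sum (u : ℕ) (hu : 2 ≤ u) (J : ℕ) :
    ∑ q ∈ (Ioc u (2 ^ J * u)).filter Nat.Prime, (1 : ℝ) / q ≤ 3 * J / Real.log u := by
  have hu' : (2 : ℝ) ≤ u := by exact_mod_cast hu
  have hlog : 0 < Real.log u := Real.log_pos (by linarith)
  induction J with
  | zero => simp
  | succ J ih =>
    have h1 : u ≤ 2 ^ J * u := Nat.le_mul_of_pos_left u (by positivity)
    have e : (Ioc u (2 ^ (J + 1) * u)).filter Nat.Prime = (Ioc u (2 ^ J * u)).filter Nat.Prime ∪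
        (Ioc (2 ^ J * u) (2 * (2 ^ J * u))).filter Nat.Prime := by
      rw [← filter_union]
      congr 1
      rw [Ioc_union_Ioc_eq_Ioc h1 (by omega)]
      congr 1
      ring
    rw [e, sum_union]
    · have h2 := dyadic (2 ^ J * u) (hu.trans h1)
      have h3 : 3 / Real.log ((2 ^ J * u : ℕ) : ℝ) ≤ 3 / Real.log u := by
        apply div_le_div_of_nonneg_left (by norm_num) hlog
        apply Real.log_le_log (by linarith)
        exact_mod_cast h1
      have h4 : 3 * ((J + 1 : ℕ) : ℝ) / Real.log u = 3 * J / Real.log u + 3 / Real.log u := by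
        push_cast
        ring
      rw [h4]
      linarith
    · apply disjoint_filter_filter
      rw [disjoint_left]
      intro q hq hq'
      rw [mem_Ioc] at hq hq'
      omega

theorem dyadic_zero (k : ℕ) :
    ∑ q ∈ (Ioc 0 (2 ^ (k + 1))).filter Nat.Prime, (1 : ℝ) / q ≤
      1 / 2 + 3 / Real.log 2 * (harmonic k : ℝ) := by
  induction k with
  | zero =>
    have : (Ioc 0 (2 ^ (0 + 1))).filter Nat.Prime = {2} := by decide
    rw [this]
    simp
  | succ k ih =>
    have h1 : (0 : ℕ) ≤ 2 ^ (k + 1) := Nat.zero_le _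
    have e : (Ioc 0 (2 ^ (k + 1 + 1))).filter Nat.Prime = (Ioc 0 (2 ^ (k + 1))).filter Nat.Prime ∪
        (Ioc (2 ^ (k + 1)) (2 * (2 ^ (k + 1)))).filter Nat.Prime := by
      rw [← filter_union]
      congr 1
      rw [Ioc_union_Ioc_eq_Ioc h1 (by omega)]
      congr 1
      ring
    have h2 : 2 ≤ 2 ^ (k + 1) := by
      rw [pow_succ]
      have : 1 ≤ 2 ^ k := Nat.one_le_two_pow
      omega
    rw [e, sum_union]
    · have h3 := dyadic (2 ^ (k + 1)) h2
      rw [harmonic_succ]
      push_cast at h3 ⊢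
      rw [Real.log_pow] at h3
      have h4 : 3 / (((k + 1 : ℕ) : ℝ) * Real.log 2) = 3 / Real.log 2 * ((k : ℝ) + 1)⁻¹ := by
        have : 0 < Real.log 2 := Real.log_pos (by norm_num)
        push_cast
        field_simp
      rw [h4] at h3
      rw [mul_add]
      linarith
    · apply disjoint_filter_filter
      rw [disjoint_left]
      intro q hq hq'
      rw [mem_Ioc] at hq hq'
      omega

/-- crude upper bound in Mertens' theorem -/
theorem sum_inv_primes_le (z : ℕ) (hz : 3 ≤ z) :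
    ∑ p ∈ z.primesBelow, (1 : ℝ) / p ≤ 11 + 5 * Real.log (Real.log z) := by
  have hz3 : (3 : ℝ) ≤ z := by exact_mod_cast hz
  have hlog3 : 1 ≤ Real.log 3 := by
    rw [Real.le_log_iff_exp_le (by norm_num)]
    exact Real.exp_one_lt_three.le
  have hlz : 1 ≤ Real.log z := hlog3.trans (Real.log_le_log (by norm_num) hz3)
  have hl2 := Real.log_two_gt_d9
  have hl2' := Real.log_two_lt_d9
  set k := Nat.log 2 z with hk
  have h1 : ∑ p ∈ z.primesBelow, (1 : ℝ) / p ≤
      ∑ q ∈ (Ioc 0 (2 ^ (k + 1))).filter Nat.Prime, (1 : ℝ) / q := by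
    apply Finset.sum_le_sum_of_subset_of_nonneg
    · intro p hp
      have h2 := Nat.lt_of_mem_primesBelow hp
      have h3 := Nat.prime_of_mem_primesBelow hp
      have h4 := Nat.lt_pow_succ_log_self (b := 2) (by norm_num) z
      rw [mem_filter, mem_Ioc]
      refine ⟨⟨h3.pos, ?_⟩, h3⟩
      exact (h2.trans h4).le
    · intro q _ _
      positivity
  have h5 := dyadic_zero k
  have hk1 : 1 ≤ k := by
    rw [hk]
    exact Nat.le_log_of_pow_le (by norm_num) (by omega)
  have hk1' : (1 : ℝ) ≤ k := by exact_mod_cast hk1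
  have h6 := harmonic_le_one_add_log k
  have h7 : (k : ℝ) * Real.log 2 ≤ Real.log z := by
    have h8 := Nat.pow_log_le_self 2 (x := z) (by omega)
    have h9 : ((2 : ℝ) ^ k) ≤ z := by exact_mod_cast h8
    have h10 := Real.log_le_log (by positivity) h9
    rwa [Real.log_pow] at h10
  have h8 : (k : ℝ) ≤ 3 / 2 * Real.log z := by nlinarith
  have h9 : Real.log k ≤ 1 / 2 + Real.log (Real.log z) := by
    have h10 := Real.log_le_log (by linarith) h8
    rw [Real.log_mul (by norm_num) (by linarith)] at h10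
    have h11 : Real.log (3 / 2) ≤ 3 / 2 - 1 := Real.log_le_sub_one_of_pos (by norm_num)
    linarith
  have h10 : 3 / Real.log 2 ≤ 5 := by
    rw [div_le_iff₀ (by linarith)]
    linarith
  have h11 : 0 ≤ Real.log (Real.log z) := Real.log_nonneg hlz
  have h12 : (harmonic k : ℝ) ≤ 3 / 2 + Real.log (Real.log z) := by linarith
  have h13 : 3 / Real.log 2 * (harmonic k : ℝ) ≤ 5 * (3 / 2 + Real.log (Real.log z)) := by
    have h14 : 0 ≤ 3 / 2 + Real.log (Real.log z) := by linarith
    calc 3 / Real.log 2 * (harmonic k : ℝ) ≤ 3 / Real.log 2 * (3 / 2 + Real.log (Real.log z)) := by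
          apply mul_le_mul_of_nonneg_left h12
          apply div_nonneg (by norm_num) (by linarith)
      _ ≤ _ := mul_le_mul_of_nonneg_right h10 h14
  linarith

/-- `n ↦ n ^ (- σ)` -/
noncomputable def powHom (σ : ℝ) : ℕ →* ℝ where
  toFun n := (n : ℝ) ^ (-σ)
  map_one' := by simp
  map_mul' a b := by
    push_cast
    rw [Real.mul_rpow (Nat.cast_nonneg a) (Nat.cast_nonneg b)]

theorem rpow_small (p : ℕ) (hp : p.Prime) (σ : ℝ) (hσ : 1 / 2 ≤ σ) :
    (p : ℝ) ^ (-σ) ≤ 5 / 7 := by
  have hp2 : (2 : ℝ) ≤ p := by exact_mod_cast hp.two_le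
  have h1 : (p : ℝ) ^ (-σ) ≤ (p : ℝ) ^ (-(1 / 2 : ℝ)) :=
    Real.rpow_le_rpow_of_exponent_le (by linarith) (by linarith)
  refine h1.trans ?_
  rw [Real.rpow_neg (by linarith), ← Real.sqrt_eq_rpow]
  have h2 : (7 / 5 : ℝ) ≤ Real.sqrt p := by
    apply Real.le_sqrt_of_sq_le
    norm_num
    linarith
  calc (Real.sqrt p)⁻¹ ≤ (7 / 5 : ℝ)⁻¹ := inv_anti₀ (by norm_num) h2
    _ = 5 / 7 := by norm_num

theorem euler_factor (x : ℝ) (h0 : 0 ≤ x) (h : x ≤ 5 / 7) : (1 - x)⁻¹ ≤ Real.exp (7 / 2 * x) := by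
  have h1 : 0 < 1 - x := by linarith
  have h2 : (1 - x)⁻¹ ≤ 1 + 7 / 2 * x := by
    rw [inv_le_iff_one_le_mul₀ h1]
    nlinarith
  refine h2.trans ?_
  have := Real.add_one_le_exp (7 / 2 * x)
  linarith

/-- Rankin's bound for smooth numbers -/
theorem smooth_count (M z : ℕ) (hM : 1 ≤ M) (hz : 8 ≤ z) :
    (((Icc 1 M).filter (fun n => n ∈ z.smoothNumbers)).card : ℝ) ≤
      M * Real.exp (-(Real.log M / Real.log z) + 110 + 50 * Real.log (Real.log z)) := by
  have hz8 : (8 : ℝ) ≤ z := by exact_mod_cast hz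
  have hM1 : (1 : ℝ) ≤ M := by exact_mod_cast hM
  have hlz : 2 ≤ Real.log z := by
    have h1 : Real.log 8 = 3 * Real.log 2 := by
      have : (8 : ℝ) = 2 ^ 3 := by norm_num
      rw [this, Real.log_pow]
      norm_num
    have h2 := Real.log_le_log (by norm_num) hz8
    have := Real.log_two_gt_d9
    linarith
  set σ : ℝ := 1 - 1 / Real.log z with hσ
  have hinv : 1 / Real.log z ≤ 1 / 2 := one_div_le_one_div_of_le (by norm_num) hlz
  have hinv0 : 0 < 1 / Real.log z := by positivity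
  have hσ2 : 1 / 2 ≤ σ := by linarith
  have hE := (EulerProduct.summable_and_hasSum_smoothNumbers_prod_primesBelow_geometric
    (f := powHom σ) (by
      intro p hp
      show ‖(p : ℝ) ^ (-σ)‖ < 1
      rw [Real.norm_of_nonneg (Real.rpow_nonneg (Nat.cast_nonneg p) _)]
      have := rpow_small p hp σ hσ2
      linarith) z).2
  have h1 : ∑ m ∈ ((Icc 1 M)).subtype (· ∈ z.smoothNumbers), powHom σ (m : ℕ)
      ≤ ∏ p ∈ z.primesBelow, (1 - powHom σ p)⁻¹ := by
    refine sum_le_hasSum _ (fun i _ => ?_) hE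
    show 0 ≤ (((i : ℕ) : ℝ)) ^ (-σ)
    positivity
  have h2 : ∑ m ∈ ((Icc 1 M)).subtype (· ∈ z.smoothNumbers), powHom σ (m : ℕ)
      = ∑ m ∈ (Icc 1 M).filter (· ∈ z.smoothNumbers), powHom σ m := by
    rw [← Finset.subtype_map, Finset.sum_map]
    rfl
  rw [h2] at h1
  have h3 : (((Icc 1 M).filter (fun n => n ∈ z.smoothNumbers)).card : ℝ) * (M : ℝ) ^ (-σ) ≤
      ∑ m ∈ (Icc 1 M).filter (· ∈ z.smoothNumbers), powHom σ m := by
    rw [← nsmul_eq_mul]
    apply Finset.card_nsmul_le_sum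
    intro m hm
    rw [mem_filter, mem_Icc] at hm
    show (M : ℝ) ^ (-σ) ≤ (m : ℝ) ^ (-σ)
    apply Real.rpow_le_rpow_of_nonpos
    · exact_mod_cast hm.1.1
    · exact_mod_cast hm.1.2
    · linarith
  have h4 : ∏ p ∈ z.primesBelow, (1 - powHom σ p)⁻¹ ≤
      Real.exp (∑ p ∈ z.primesBelow, 10 * ((1 : ℝ) / p)) := by
    rw [Real.exp_sum]
    apply Finset.prod_le_prod
    · intro p hp
      have hp' := Nat.prime_of_mem_primesBelow hp
      have := rpow_small p hp' σ hσ2
      apply inv_nonneg.2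
      show 0 ≤ 1 - (p : ℝ) ^ (-σ)
      linarith
    · intro p hp
      have hp' := Nat.prime_of_mem_primesBelow hp
      have hpz := Nat.lt_of_mem_primesBelow hp
      have hp2 : (2 : ℝ) ≤ p := by exact_mod_cast hp'.two_le
      refine (euler_factor ((p : ℝ) ^ (-σ)) (by positivity) (rpow_small p hp' σ hσ2)).trans ?_
      apply Real.exp_le_exp.2
      have h5 : (p : ℝ) ^ (-σ) = 1 / p * (p : ℝ) ^ (1 / Real.log z) := by
        rw [hσ, neg_sub, Real.rpow_sub (by linarith), Real.rpow_one]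
        ring
      have h6 : (p : ℝ) ^ (1 / Real.log z) ≤ Real.exp 1 := by
        rw [Real.rpow_def_of_pos (by linarith)]
        apply Real.exp_le_exp.2
        rw [mul_one_div, div_le_one (by linarith)]
        apply Real.log_le_log (by linarith)
        exact_mod_cast hpz.le
      have h7 := Real.exp_one_lt_d9
      rw [h5]
      have h8 : 1 / (p : ℝ) * (p : ℝ) ^ (1 / Real.log z) ≤ 1 / p * 2.72 := by
        apply mul_le_mul_of_nonneg_left _ (by positivity)
        linarith
      have h9 : 0 ≤ 1 / (p : ℝ) := by positivity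
      linarith
  have h5 := sum_inv_primes_le z (by omega)
  have h6 : ∑ p ∈ z.primesBelow, 10 * ((1 : ℝ) / p) ≤ 110 + 50 * Real.log (Real.log z) := by
    rw [← Finset.mul_sum]
    linarith
  have h7 := h3.trans (h1.trans (h4.trans (Real.exp_le_exp.2 h6)))
  have h8 : (M : ℝ) ^ (-σ) = (M : ℝ)⁻¹ * Real.exp (Real.log M / Real.log z) := by
    rw [hσ, neg_sub, Real.rpow_sub (by linarith), Real.rpow_one, Real.rpow_def_of_pos (by linarith),
      mul_one_div]
    ring
  rw [h8, ← mul_assoc, ← div_eq_mul_inv] at h7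
  have h9 : (((Icc 1 M).filter (fun n => n ∈ z.smoothNumbers)).card : ℝ) / M ≤
      Real.exp (110 + 50 * Real.log (Real.log z)) * Real.exp (-(Real.log M / Real.log z)) := by
    rw [Real.exp_neg, ← div_eq_mul_inv, le_div_iff₀ (Real.exp_pos _)]
    exact h7
  rw [← Real.exp_add, div_le_iff₀ (by linarith)] at h9
  refine h9.trans (le_of_eq ?_)
  rw [mul_comm]
  congr 2
  ring

end Pool.Agent.H6.Cub
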