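import Pool.Agent.H5.PNT.PNT
import Pool.Agent.H1.Mertens
import Pool.Agent.H6.Cub.Greedy

/-!
Sums over primes used for the covering argument.
-/

namespace Pool.Agent.H6.Cub

open Finset Filter Topology

/-- the indicator of primes in a residue class modulo 3 -/
noncomputable def ind (a p : ℕ) : ℝ := if p.Prime ∧ p % 3 = a then 1 else 0

theorem ind_nonneg (a p : ℕ) : 0 ≤ ind a p := by
  unfold ind
  split_ifs <;> norm_num

theorem loglog_step (t : ℝ) (ht : 2 ≤ t) :
    Real.log (Real.log (t + 1)) - Real.log (Real.log t) ≤ 1 / (t * Real.log t) := by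
  have h1 : 0 < Real.log t := Real.log_pos (by linarith)
  have h2 : 0 < Real.log (t + 1) := Real.log_pos (by linarith)
  rw [← Real.log_div h2.ne' h1.ne']
  have h3 : Real.log (Real.log (t + 1) / Real.log t) ≤ Real.log (t + 1) / Real.log t - 1 :=
    Real.log_le_sub_one_of_pos (div_pos h2 h1)
  have h4 : Real.log (t + 1) - Real.log t ≤ 1 / t := by
    rw [← Real.log_div (by linarith) (by linarith)]
    have h5 : Real.log ((t + 1) / t) ≤ (t + 1) / t - 1 :=
      Real.log_le_sub_one_of_pos (by positivity)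
    have h6 : (t + 1) / t - 1 = 1 / t := by
      field_simp
      ring
    linarith
  have h7 : Real.log (t + 1) / Real.log t - 1 = (Real.log (t + 1) - Real.log t) / Real.log t := by
    field_simp
  rw [h7] at h3
  refine h3.trans ?_
  rw [← div_div]
  exact div_le_div_of_nonneg_right h4 h1.le

theorem cnt_eq (a : ℕ) (ha : a < 3) (n : ℕ) :
    ∑ p ∈ range (n + 1), ind a p = ((Pool.Agent.H5.PNT.primesIn 3 (a : ZMod 3) (n : ℝ)).card : ℝ) := by
  unfold ind Pool.Agent.H5.PNT.primesIn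
  rw [Finset.sum_boole, Nat.floor_natCast]
  congr 2
  ext p
  simp only [mem_filter, mem_range, mem_Icc]
  have h1 : ((p : ZMod 3) = (a : ZMod 3)) ↔ p % 3 = a := by
    rw [ZMod.natCast_eq_natCast_iff]
    unfold Nat.ModEq
    rw [Nat.mod_eq_of_lt ha]
  constructor
  · rintro ⟨h2, h3, h4⟩
    exact ⟨⟨h3.one_le, by omega⟩, h3, h1.2 h4⟩
  · rintro ⟨⟨h2, h3⟩, h4, h5⟩
    exact ⟨by omega, h4, h1.1 h5⟩

theorem cnt_lower (a : ℕ) (ha : a = 1 ∨ a = 2) (ε : ℝ) (hε : 0 < ε) :
    ∃ N0 : ℕ, 2 ≤ N0 ∧ ∀ n : ℕ, N0 ≤ n →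
      (1 / 2 - ε) * (n / Real.log n) ≤ ∑ p ∈ range (n + 1), ind a p := by
  have hu : IsUnit (a : ZMod 3) := by
    rcases ha with rfl | rfl
    · simp
    · exact ⟨⟨2, 2, by decide, by decide⟩, rfl⟩
  have h := Pool.Agent.H5.PNT.pi_ap 3 (a : ZMod 3) hu
  have ht : (Nat.totient 3 : ℝ)⁻¹ = 1 / 2 := by
    rw [Nat.totient_prime Nat.prime_three]
    norm_num
  rw [ht] at h
  have h1 : ∀ᶠ x : ℝ in atTop, 1 / 2 - ε <
      ((Pool.Agent.H5.PNT.primesIn 3 (a : ZMod 3) x).card : ℝ) * Real.log x / x :=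
    h.eventually_const_lt (by linarith)
  have h2 := (tendsto_natCast_atTop_atTop (R := ℝ)).eventually h1
  obtain ⟨N1, hN1⟩ := eventually_atTop.1 h2
  refine ⟨max N1 2, le_max_right _ _, fun n hn => ?_⟩
  have h3 := hN1 n ((le_max_left _ _).trans hn)
  have hn2 : 2 ≤ n := (le_max_right _ _).trans hn
  have hn2' : (2 : ℝ) ≤ n := by exact_mod_cast hn2
  have hlog : 0 < Real.log n := Real.log_pos (by linarith)
  rw [cnt_eq a (by omega)]
  rw [lt_div_iff₀ (by linarith)] at h3
  rw [← mul_div_assoc, div_le_iff₀ hlog]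
  exact h3.le

theorem mertens_ap_aux (a : ℕ) (c : ℝ) (hc : 0 ≤ c) (N0 : ℕ) (h2 : 2 ≤ N0)
    (h : ∀ n : ℕ, N0 ≤ n → c * (n / Real.log n) ≤ ∑ p ∈ range (n + 1), ind a p) (n : ℕ)
    (hn : N0 ≤ n) :
    (∑ p ∈ range n, ind a p) / n + c * (Real.log (Real.log (n + 1)) - Real.log (Real.log (N0 + 1))) ≤
      ∑ p ∈ range n, ind a p / p := by
  induction n, hn using Nat.le_induction with
  | base =>
    rw [sub_self, mul_zero, add_zero, Finset.sum_div]
    apply Finset.sum_le_sum
    intro p hp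
    have hp' := Finset.mem_range.1 hp
    rcases Nat.eq_zero_or_pos p with rfl | hp0
    · simp [ind, Nat.not_prime_zero]
    · apply div_le_div_of_nonneg_left (ind_nonneg a p) (by exact_mod_cast hp0)
      exact_mod_cast hp'.le
  | succ n hn ih =>
    have hn2 : (2 : ℝ) ≤ n := by exact_mod_cast h2.trans hn
    have hlog : 0 < Real.log n := Real.log_pos (by linarith)
    have hlog1 : 0 < Real.log ((n : ℝ) + 1) := Real.log_pos (by linarith)
    have h3 := h n hn
    rw [Finset.sum_range_succ (fun p => ind a p / p)]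
    have e1 : (∑ p ∈ range (n + 1), ind a p) / ((n + 1 : ℕ) : ℝ) =
        (∑ p ∈ range n, ind a p) / n + ind a n / n - (∑ p ∈ range (n + 1), ind a p) / (n * (n + 1)) := by
      rw [Finset.sum_range_succ]
      push_cast
      field_simp
      ring
    have h4 : c * (1 / (((n : ℝ) + 1) * Real.log n)) ≤ (∑ p ∈ range (n + 1), ind a p) / (n * (n + 1)) := by
      have h5 : c * (1 / (((n : ℝ) + 1) * Real.log n)) = c * (n / Real.log n) / (n * (n + 1)) := by
        field_simp
      rw [h5]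
      exact div_le_div_of_nonneg_right h3 (by positivity)
    have h6 := loglog_step ((n : ℝ) + 1) (by linarith)
    have h7 : 1 / (((n : ℝ) + 1) * Real.log ((n : ℝ) + 1)) ≤ 1 / (((n : ℝ) + 1) * Real.log n) := by
      apply one_div_le_one_div_of_le (by positivity)
      apply mul_le_mul_of_nonneg_left _ (by linarith)
      exact Real.log_le_log (by linarith) (by linarith)
    have h8 := mul_le_mul_of_nonneg_left (h6.trans h7) hc
    rw [e1]
    push_cast
    have e2 : c * (Real.log (Real.log ((n : ℝ) + 1 + 1)) - Real.log (Real.log ((N0 : ℝ) + 1))) =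
        c * (Real.log (Real.log ((n : ℝ) + 1)) - Real.log (Real.log ((N0 : ℝ) + 1))) +
        c * (Real.log (Real.log ((n : ℝ) + 1 + 1)) - Real.log (Real.log ((n : ℝ) + 1))) := by ring
    rw [e2]
    linarith

/-- Mertens in a residue class modulo 3, lower bound -/
theorem mertens_ap (a : ℕ) (ha : a = 1 ∨ a = 2) (ε : ℝ) (hε : 0 < ε) (hε2 : ε < 1 / 2) :
    ∃ C : ℝ, 0 ≤ C ∧ ∀ n : ℕ, 3 ≤ n → (1 / 2 - ε) * Real.log (Real.log n) - C ≤
      ∑ p ∈ range n, ind a p / p := by
  obtain ⟨N0, hN0, h⟩ := cnt_lower a ha ε hε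
  have key := mertens_ap_aux a (1 / 2 - ε) (by linarith) N0 hN0 h
  have hR : ∀ n : ℕ, 0 ≤ ∑ p ∈ range n, ind a p / (p : ℝ) := fun n =>
    Finset.sum_nonneg fun p _ => div_nonneg (ind_nonneg a p) (Nat.cast_nonneg p)
  have hN3 : (3 : ℝ) ≤ (N0 : ℝ) + 1 := by
    have : (2 : ℝ) ≤ N0 := by exact_mod_cast hN0
    linarith
  have hlog3 : 1 ≤ Real.log 3 := by
    rw [Real.le_log_iff_exp_le (by norm_num)]
    exact Real.exp_one_lt_three.le
  have hL : 1 ≤ Real.log ((N0 : ℝ) + 1) := hlog3.trans (Real.log_le_log (by norm_num) hN3)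
  have hLL : 0 ≤ Real.log (Real.log ((N0 : ℝ) + 1)) := Real.log_nonneg hL
  refine ⟨(1 / 2 - ε) * Real.log (Real.log ((N0 : ℝ) + 1)), by
    apply mul_nonneg (by linarith) hLL, fun n hn => ?_⟩
  have hn3 : (3 : ℝ) ≤ n := by exact_mod_cast hn
  have hln : 1 ≤ Real.log n := hlog3.trans (Real.log_le_log (by norm_num) hn3)
  by_cases hn0 : N0 ≤ n
  · have h1 := key n hn0
    have h2 : 0 ≤ (∑ p ∈ range n, ind a p) / (n : ℝ) :=
      div_nonneg (Finset.sum_nonneg fun p _ => ind_nonneg a p) (Nat.cast_nonneg n)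
    have h3 : Real.log (Real.log n) ≤ Real.log (Real.log ((n : ℝ) + 1)) := by
      apply Real.log_le_log (by linarith)
      exact Real.log_le_log (by linarith) (by linarith)
    have h4 := mul_le_mul_of_nonneg_left h3 (by linarith : 0 ≤ 1 / 2 - ε)
    rw [mul_sub] at h1
    linarith
  · push Not at hn0
    have h3 : Real.log (Real.log n) ≤ Real.log (Real.log ((N0 : ℝ) + 1)) := by
      apply Real.log_le_log (by linarith)
      apply Real.log_le_log (by linarith)
      have : (n : ℝ) ≤ N0 := by exact_mod_cast hn0.le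
      linarith
    have h4 := mul_le_mul_of_nonneg_left h3 (by linarith : 0 ≤ 1 / 2 - ε)
    have h5 := hR n
    linarith

theorem wt_le_exp (p : ℕ) (hp : p.Prime) :
    wt p ≤ Real.exp (-(3 * (ind 1 p / p) + ind 2 p / p) + 9 * (1 / ((p : ℝ) * (p - 1)))) := by
  have hp2 : (2 : ℝ) ≤ p := by exact_mod_cast hp.two_le
  have h9 : 9 / (p : ℝ) ^ 2 ≤ 9 * (1 / ((p : ℝ) * (p - 1))) := by
    rw [← mul_one_div]
    apply mul_le_mul_of_nonneg_left _ (by norm_num)
    apply one_div_le_one_div_of_le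
    · apply mul_pos <;> linarith
    · nlinarith
  have h90 : 0 ≤ 9 / (p : ℝ) ^ 2 := by positivity
  have hnn : 0 ≤ 1 / (p : ℝ) := by positivity
  unfold wt
  by_cases h1 : p % 3 = 1
  · have i1 : ind 1 p = 1 := by unfold ind; rw [if_pos ⟨hp, h1⟩]
    have i2 : ind 2 p = 0 := by unfold ind; rw [if_neg (by omega)]
    rw [if_pos h1, i1, i2]
    refine le_trans ?_ (Real.add_one_le_exp _)
    have e : 3 * (1 / (p : ℝ)) = 3 / p := by ring
    rw [e]
    have : (0 : ℝ) / p = 0 := zero_div _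
    linarith
  · have i1 : ind 1 p = 0 := by unfold ind; rw [if_neg (fun h => h1 h.2)]
    rw [if_neg h1, i1]
    refine le_trans ?_ (Real.add_one_le_exp _)
    have h2 : ind 2 p / p ≤ 1 / (p : ℝ) := by
      apply div_le_div_of_nonneg_right _ (by linarith)
      unfold ind
      split_ifs <;> norm_num
    have : (0 : ℝ) / p = 0 := zero_div _
    linarith

/-- the product of the weights -/
theorem prod_wt_le (ε : ℝ) (hε : 0 < ε) (hε2 : ε < 1 / 2) :
    ∃ C : ℝ, 0 < C ∧ ∀ z : ℕ, 3 ≤ z →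
      ∏ p ∈ z.primesBelow, wt p ≤ C * Real.exp (-(2 - 4 * ε) * Real.log (Real.log z)) := by
  obtain ⟨C1, hC1, h1⟩ := mertens_ap 1 (Or.inl rfl) ε hε hε2
  obtain ⟨C2, hC2, h2⟩ := mertens_ap 2 (Or.inr rfl) ε hε hε2
  refine ⟨Real.exp (3 * C1 + C2 + 9), Real.exp_pos _, fun z hz => ?_⟩
  have h3 : ∏ p ∈ z.primesBelow, wt p ≤ ∏ p ∈ z.primesBelow,
      Real.exp (-(3 * (ind 1 p / p) + ind 2 p / p) + 9 * (1 / ((p : ℝ) * (p - 1)))) :=
    Finset.prod_le_prod (fun p hp => wt_nonneg p (Nat.prime_of_mem_primesBelow hp))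
      (fun p hp => wt_le_exp p (Nat.prime_of_mem_primesBelow hp))
  refine h3.trans ?_
  rw [← Real.exp_sum, ← Real.exp_add]
  apply Real.exp_le_exp.2
  rw [Finset.sum_add_distrib, Finset.sum_neg_distrib, Finset.sum_add_distrib, ← Finset.mul_sum,
    ← Finset.mul_sum]
  have hsub : ∀ a : ℕ, ∑ p ∈ z.primesBelow, ind a p / (p : ℝ) = ∑ p ∈ range z, ind a p / (p : ℝ) := by
    intro a
    unfold Nat.primesBelow
    rw [Finset.sum_filter]
    apply Finset.sum_congr rfl
    intro p _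
    split_ifs with h
    · rfl
    · unfold ind
      rw [if_neg (fun h' => h h'.1), zero_div]
  rw [hsub, hsub]
  have h5 : ∑ p ∈ z.primesBelow, (1 : ℝ) / (p * (p - 1)) ≤ 1 := by
    refine le_trans ?_ (Pool.Agent.H1.sum_telescope z)
    have : ∑ p ∈ z.primesBelow, (1 : ℝ) / (p * (p - 1))
        = ∑ p ∈ z.primesBelow, (if 2 ≤ p then (1 : ℝ) / (p * (p - 1)) else 0) := by
      apply Finset.sum_congr rfl
      intro p hp
      rw [if_pos (Nat.prime_of_mem_primesBelow hp).two_le]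
    rw [this]
    apply Finset.sum_le_sum_of_subset_of_nonneg
    · intro p hp
      rw [Finset.mem_range]
      exact Nat.lt_of_mem_primesBelow hp
    · intro n _ _
      split_ifs with h
      · have : (2:ℝ) ≤ n := by exact_mod_cast h
        have h6 : (0:ℝ) < (n:ℝ) - 1 := by linarith
        positivity
      · exact le_refl _
  have h6 := h1 z hz
  have h7 := h2 z hz
  have e : -(2 - 4 * ε) * Real.log (Real.log z) = -(3 * ((1 / 2 - ε) * Real.log (Real.log z)) +
      (1 / 2 - ε) * Real.log (Real.log z)) := by ring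
  rw [e]
  linarith

end Pool.Agent.H6.Cub
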